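import Mathlib
set_option autoImplicit false
open Finset
open scoped Classical

namespace Pool.Agent.X330.RF

variable {V : Type} [Fintype V]

/-- capped probability vectors -/
def Cap (V : Type) [Fintype V] (m : ℕ) : Set (V → ℝ) :=
  {p | (∀ v, 0 ≤ p v) ∧ (∀ v, p v ≤ 1 / (m : ℝ)) ∧ ∑ v, p v = 1}

theorem cap_convex (m : ℕ) : Convex ℝ (Cap V m) := by
  rintro p ⟨hp0, hp1, hp2⟩ q ⟨hq0, hq1, hq2⟩ a b ha hb hab
  refine ⟨fun v => ?_, fun v => ?_, ?_⟩
  · simp only [Pi.add_apply, Pi.smul_apply, smul_eq_mul]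
    have := mul_nonneg ha (hp0 v)
    have := mul_nonneg hb (hq0 v)
    linarith
  · simp only [Pi.add_apply, Pi.smul_apply, smul_eq_mul]
    have h1 := mul_le_mul_of_nonneg_left (hp1 v) ha
    have h2 := mul_le_mul_of_nonneg_left (hq1 v) hb
    have : a * (1 / (m : ℝ)) + b * (1 / (m : ℝ)) = 1 / (m : ℝ) := by
      rw [← add_mul, hab, one_mul]
    linarith
  · simp only [Pi.add_apply, Pi.smul_apply, smul_eq_mul, Finset.sum_add_distrib,
      ← Finset.mul_sum, hp2, hq2, mul_one, hab]

theorem cap_compact (m : ℕ) : IsCompact (Cap V m) := by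
  have h1 : IsCompact (Set.pi Set.univ (fun _ : V => Set.Icc (0 : ℝ) (1 / (m : ℝ)))) :=
    isCompact_univ_pi fun _ => isCompact_Icc
  have h2 : IsClosed {p : V → ℝ | ∑ v, p v = 1} := by
    apply isClosed_eq
    · fun_prop
    · fun_prop
  have h3 : Cap V m = Set.pi Set.univ (fun _ : V => Set.Icc (0 : ℝ) (1 / (m : ℝ))) ∩
      {p : V → ℝ | ∑ v, p v = 1} := by
    ext p
    simp only [Cap, Set.mem_ofPred_eq, Set.mem_inter_iff, Set.mem_pi, Set.mem_univ, true_imp_iff,
      Set.mem_Icc]
    constructor
    · rintro ⟨h, h', h''⟩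
      exact ⟨fun v => ⟨h v, h' v⟩, h''⟩
    · rintro ⟨h, h''⟩
      exact ⟨fun v => (h v).1, fun v => (h v).2, h''⟩
  rw [h3]
  exact h1.inter_right h2

/-- the uniform vector on an m-subset -/
noncomputable def unif (S : Finset V) (m : ℕ) : V → ℝ := fun v => if v ∈ S then 1 / (m : ℝ) else 0

theorem unif_mem (S : Finset V) (m : ℕ) (hm : 0 < m) (hS : S.card = m) : unif S m ∈ Cap V m := by
  have hm' : (0 : ℝ) < m := by exact_mod_cast hm
  refine ⟨fun v => ?_, fun v => ?_, ?_⟩
  · unfold unif; split_ifs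
    · positivity
    · exact le_rfl
  · unfold unif; split_ifs
    · exact le_rfl
    · positivity
  · unfold unif
    rw [Finset.sum_ite_mem, Finset.univ_inter, Finset.sum_const, nsmul_eq_mul, hS]
    field_simp

theorem few_large (m : ℕ) (hm : 0 < m) (g : V → ℝ) (θ : ℝ)
    (h : ∀ y ∈ Cap V m, ∑ d, g d * y d ≤ θ) :
    ((univ : Finset V).filter (fun d => θ < g d)).card < m := by
  by_contra hc
  push Not at hc
  obtain ⟨S, hS, hSc⟩ := Finset.exists_subset_card_eq hc
  have h1 := h _ (unif_mem S m hm hSc)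
  have hm' : (0 : ℝ) < m := by exact_mod_cast hm
  have h2 : ∑ d, g d * unif S m d = ∑ d ∈ S, g d * (1 / (m : ℝ)) := by
    unfold unif
    simp only [mul_ite, mul_zero]
    rw [Finset.sum_ite_mem, Finset.univ_inter]
  rw [h2] at h1
  have hne : S.Nonempty := by
    rw [← Finset.card_pos, hSc]; exact hm
  have h3 : ∑ d ∈ S, θ * (1 / (m : ℝ)) < ∑ d ∈ S, g d * (1 / (m : ℝ)) := by
    apply Finset.sum_lt_sum_of_nonempty hne
    intro d hd
    have := (Finset.mem_filter.mp (hS hd)).2
    apply mul_lt_mul_of_pos_right this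
    positivity
  rw [Finset.sum_const, nsmul_eq_mul, hSc] at h3
  have h4 : (m : ℝ) * (θ * (1 / (m : ℝ))) = θ := by field_simp
  linarith

theorem few_small (m : ℕ) (hm : 0 < m) (g : V → ℝ) (θ : ℝ)
    (h : ∀ y ∈ Cap V m, θ ≤ ∑ d, g d * y d) :
    ((univ : Finset V).filter (fun d => g d < θ)).card < m := by
  have := few_large m hm (fun d => - g d) (-θ) (fun y hy => by
    have := h y hy
    simp only [neg_mul, Finset.sum_neg_distrib]
    linarith)
  simpa using this

theorem saddle (m : ℕ) (hm : 0 < m) (hmN : m ≤ Fintype.card V) (A : V → V → ℝ) :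
    ∃ a ∈ Cap V m, ∃ b ∈ Cap V m, ∀ x ∈ Cap V m, ∀ y ∈ Cap V m,
      ∑ u, ∑ d, a u * A u d * y d ≤ ∑ u, ∑ d, x u * A u d * b d := by
  have hne : (Cap V m).Nonempty := by
    obtain ⟨S, -, hSc⟩ := Finset.exists_subset_card_eq (s := (univ : Finset V)) (n := m)
      (by simpa using hmN)
    exact ⟨_, unif_mem S m hm hSc⟩
  have key := Sion.exists_isSaddlePointOn (E := V → ℝ) (F := V → ℝ) (X := Cap V m) (Y := Cap V m)
    (f := fun p q => ∑ u, ∑ d, p u * A u d * q d) hne (cap_convex m) (cap_compact m)
    (fun z _ => by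
      apply ContinuousOn.lowerSemicontinuousOn
      apply Continuous.continuousOn
      fun_prop)
    (fun z _ => by
      apply ConvexOn.quasiconvexOn
      refine ⟨cap_convex m, fun x _ y _ a b _ _ _ => ?_⟩
      apply le_of_eq
      simp only [Pi.add_apply, Pi.smul_apply, smul_eq_mul, Finset.mul_sum,
        ← Finset.sum_add_distrib]
      exact Finset.sum_congr rfl fun j _ => Finset.sum_congr rfl fun i _ => by ring)
    (cap_convex m) hne (cap_compact m)
    (fun c _ => by
      apply ContinuousOn.upperSemicontinuousOn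
      apply Continuous.continuousOn
      fun_prop)
    (fun c hc => by
      apply ConcaveOn.quasiconcaveOn
      refine ⟨cap_convex m, fun x hx y hy a b ha hb hab => ?_⟩
      apply le_of_eq
      simp only [Pi.add_apply, Pi.smul_apply, smul_eq_mul, Finset.mul_sum,
        ← Finset.sum_add_distrib]
      exact Finset.sum_congr rfl fun j _ => Finset.sum_congr rfl fun i _ => by ring)
  obtain ⟨a, ha, b, hb, hs⟩ := key
  exact ⟨a, ha, b, hb, hs⟩

/-- density of the neighbourhood of `d` in the graph `H` with respect to the weights `p` -/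
noncomputable def dens (H : SimpleGraph V) (p : V → ℝ) (S : Finset V) (d : V) : ℝ :=
  ∑ u ∈ S, if H.Adj u d then p u else 0

theorem minimax_graph (H : SimpleGraph V) (m : ℕ) (hm : 0 < m) (hmN : m ≤ Fintype.card V) :
    ∃ H' : SimpleGraph V, (H' = H ∨ H' = Hᶜ) ∧ ∃ p : V → ℝ, (∀ v, 0 ≤ p v) ∧
      (∀ v, p v ≤ 1 / (m : ℝ)) ∧ ∑ v, p v = 1 ∧ ∃ X : Finset V, X.card < m ∧
      ∀ d, d ∉ X → 1 / 2 - 1 / (2 * (m : ℝ)) ≤ dens H' p univ d := by
  have hm' : (0 : ℝ) < m := by exact_mod_cast hm
  set A : V → V → ℝ := fun u d => if H.Adj u d then 1 else if u = d then 1 / 2 else 0 with hA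
  obtain ⟨a, ha, b, hb, hs⟩ := saddle m hm hmN A
  set v := ∑ u, ∑ d, a u * A u d * b d with hv
  rcases le_total v (1 / 2) with h | h
  · -- complement
    refine ⟨Hᶜ, Or.inr rfl, a, ha.1, ha.2.1, ha.2.2,
      (univ : Finset V).filter (fun d => (1 : ℝ) / 2 < ∑ u, a u * A u d), ?_, ?_⟩
    · apply few_large m hm
      intro y hy
      have h1 := hs a ha y hy
      refine le_trans (le_of_eq ?_) (h1.trans h)
      rw [Finset.sum_comm]
      exact Finset.sum_congr rfl fun d _ => by rw [Finset.sum_mul]
    · intro d hd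
      simp only [Finset.mem_filter, Finset.mem_univ, true_and, not_lt] at hd
      have h2 : dens Hᶜ a univ d + ∑ u, a u * A u d
          + ∑ u, (if u = d then a u / 2 else 0) = ∑ u, a u := by
        unfold dens
        rw [← Finset.sum_add_distrib, ← Finset.sum_add_distrib]
        apply Finset.sum_congr rfl
        intro u _
        simp only [hA, SimpleGraph.compl_adj]
        by_cases h3 : u = d
        · subst h3
          simp
          ring
        · by_cases h4 : H.Adj u d
          · simp [h3, h4]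
          · simp [h3, h4]
      rw [Finset.sum_ite_eq' univ d, if_pos (Finset.mem_univ d), ha.2.2] at h2
      have h5 := ha.2.1 d
      have h6 : 1 / (2 * (m : ℝ)) = (1 / (m : ℝ)) / 2 := by field_simp
      rw [h6]
      linarith
  · refine ⟨H, Or.inl rfl, b, hb.1, hb.2.1, hb.2.2,
      (univ : Finset V).filter (fun u => ∑ d, A u d * b d < (1 : ℝ) / 2), ?_, ?_⟩
    · apply few_small m hm
      intro x hx
      have h1 := hs x hx b hb
      refine le_trans (h.trans h1) (le_of_eq ?_)
      apply Finset.sum_congr rfl fun u _ => ?_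
      rw [Finset.sum_mul]
      exact Finset.sum_congr rfl fun d _ => by ring
    · intro d hd
      simp only [Finset.mem_filter, Finset.mem_univ, true_and, not_lt] at hd
      have h2 : dens H b univ d
          + ∑ u, (if u = d then b u / 2 else 0) = ∑ u, A d u * b u := by
        unfold dens
        rw [← Finset.sum_add_distrib]
        apply Finset.sum_congr rfl
        intro u _
        simp only [hA]
        by_cases h3 : u = d
        · subst h3
          simp; ring
        · have h3' : ¬ d = u := fun h => h3 h.symm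
          by_cases h4 : H.Adj u d
          · simp [h3, h4, h4.symm]
          · have h4' : ¬ H.Adj d u := fun h => h4 h.symm
            simp [h3, h3', h4, h4']
      rw [Finset.sum_ite_eq' univ d, if_pos (Finset.mem_univ d)] at h2
      have h5 := hb.2.1 d
      have h6 : 1 / (2 * (m : ℝ)) = (1 / (m : ℝ)) / 2 := by field_simp
      rw [h6]
      linarith

end Pool.Agent.X330.RF
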