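import Mathlib
import Pool.Agent.X330.RF.Minimax
set_option autoImplicit false
open Finset
open scoped Classical

namespace Pool.Agent.X330.RF

variable {V : Type} [Fintype V]

/-- number of neighbours of `d` in `P` -/
noncomputable def cnt (H : SimpleGraph V) (P : Finset V) (d : V) : ℕ :=
  (P.filter (fun u => H.Adj u d)).card

theorem cnt_insert (H : SimpleGraph V) (P : Finset V) (u d : V) (hu : u ∉ P) (η : ℝ) :
    (1 - η) ^ cnt H (insert u P) d = (1 - η) ^ cnt H P d * (1 - η * (if H.Adj u d then 1 else 0)) := by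
  unfold cnt
  rw [Finset.filter_insert]
  split_ifs with h
  · rw [Finset.card_insert_of_notMem (fun h' => hu (Finset.mem_filter.mp h').1), pow_succ]
    ring
  · ring

theorem dens_le (H : SimpleGraph V) (p : V → ℝ) (hp0 : ∀ v, 0 ≤ p v) (S : Finset V) (d : V) :
    dens H p S d ≤ ∑ v ∈ S, p v := by
  unfold dens
  apply Finset.sum_le_sum
  intro i _
  split_ifs
  · exact le_rfl
  · exact hp0 i

theorem sample_step (H : SimpleGraph V) (p : V → ℝ) (hp0 : ∀ v, 0 ≤ p v) (κ : ℝ)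
    (hpκ : ∀ v, p v ≤ κ) (S : Finset V) (hS : ∑ v ∈ S, p v = 1) (D : Finset V) (θ : ℝ)
    (hD : ∀ d ∈ D, θ ≤ dens H p S d) (K : ℕ) (hK : (K : ℝ) * κ < 1) (η : ℝ) (hη0 : 0 < η)
    (hη1 : η < 1) (hθ : 0 ≤ θ - K * κ) (P : Finset V) (hPS : P ⊆ S) (hPK : P.card < K) :
    ∃ u ∈ S, u ∉ P ∧ ∑ d ∈ D, (1 - η) ^ cnt H (insert u P) d ≤
      (1 - η * (θ - K * κ)) * ∑ d ∈ D, (1 - η) ^ cnt H P d := by
  by_contra hcon
  push Not at hcon
  have hκ0 : 0 ≤ κ := by
    by_contra hneg
    push Not at hneg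
    have h1 : ∑ v ∈ S, p v ≤ 0 := Finset.sum_nonpos fun v _ => (hpκ v).trans hneg.le
    linarith
  set θ' := θ - K * κ with hθ'
  set π := ∑ u ∈ S \ P, p u with hπ
  have hsplit : ∀ f : V → ℝ, ∑ u ∈ S \ P, f u + ∑ u ∈ P, f u = ∑ u ∈ S, f u := fun f =>
    Finset.sum_sdiff hPS
  have hPsum : ∑ u ∈ P, p u ≤ K * κ := by
    have h1 : ∑ u ∈ P, p u ≤ ∑ _u ∈ P, κ := Finset.sum_le_sum fun u _ => hpκ u
    rw [Finset.sum_const, nsmul_eq_mul] at h1
    have h2 : (P.card : ℝ) * κ ≤ K * κ := by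
      apply mul_le_mul_of_nonneg_right _ hκ0
      exact_mod_cast hPK.le
    linarith
  have hPsum0 : 0 ≤ ∑ u ∈ P, p u := Finset.sum_nonneg fun u _ => hp0 u
  have hπ1 : π ≤ 1 := by have := hsplit p; linarith
  have hπ0 : 0 < π := by have := hsplit p; linarith
  set Φ := ∑ d ∈ D, (1 - η) ^ cnt H P d with hΦ
  -- upper bound for the weighted average
  have hup : ∑ u ∈ S \ P, p u * ∑ d ∈ D, (1 - η) ^ cnt H (insert u P) d ≤
      (1 - η * θ') * π * Φ := by
    have h1 : ∑ u ∈ S \ P, p u * ∑ d ∈ D, (1 - η) ^ cnt H (insert u P) d =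
        ∑ d ∈ D, (1 - η) ^ cnt H P d * (π - η * dens H p (S \ P) d) := by
      simp_rw [Finset.mul_sum]
      rw [Finset.sum_comm]
      apply Finset.sum_congr rfl
      intro d _
      have h2 : ∀ u ∈ S \ P, p u * (1 - η) ^ cnt H (insert u P) d =
          (1 - η) ^ cnt H P d * (p u - η * (if H.Adj u d then p u else 0)) := by
        intro u hu
        rw [cnt_insert H P u d (Finset.mem_sdiff.mp hu).2]
        split_ifs <;> ring
      rw [Finset.sum_congr rfl h2, ← Finset.mul_sum, Finset.sum_sub_distrib, ← Finset.mul_sum]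
      rfl
    rw [h1, Finset.mul_sum]
    apply Finset.sum_le_sum
    intro d hd
    have h3 : θ' ≤ dens H p (S \ P) d := by
      have h4 := hsplit (fun u => if H.Adj u d then p u else 0)
      have h5 := dens_le H p hp0 P d
      have h6 := hD d hd
      unfold dens at *
      linarith
    have h7 : 0 < (1 - η) ^ cnt H P d := pow_pos (by linarith) _
    have h8 : π - η * dens H p (S \ P) d ≤ (1 - η * θ') * π := by
      have h9 : η * θ' ≤ η * dens H p (S \ P) d := mul_le_mul_of_nonneg_left h3 hη0.le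
      have h10 : 0 ≤ η * θ' := mul_nonneg hη0.le hθ
      nlinarith
    calc (1 - η) ^ cnt H P d * (π - η * dens H p (S \ P) d) ≤
        (1 - η) ^ cnt H P d * ((1 - η * θ') * π) := mul_le_mul_of_nonneg_left h8 h7.le
      _ = (1 - η * θ') * π * (1 - η) ^ cnt H P d := by ring
  have hlow : ∑ u ∈ S \ P, p u * ((1 - η * θ') * Φ) <
      ∑ u ∈ S \ P, p u * ∑ d ∈ D, (1 - η) ^ cnt H (insert u P) d := by
    apply Finset.sum_lt_sum
    · intro u hu
      rw [Finset.mem_sdiff] at hu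
      exact mul_le_mul_of_nonneg_left (hcon u hu.1 hu.2).le (hp0 u)
    · by_contra hno
      push Not at hno
      have : π ≤ 0 := by
        apply Finset.sum_nonpos
        intro u hu
        by_contra hpos
        push Not at hpos
        have h1 := hno u hu
        rw [Finset.mem_sdiff] at hu
        have h2 := mul_lt_mul_of_pos_left (hcon u hu.1 hu.2) hpos
        linarith
      linarith
  rw [← Finset.sum_mul] at hlow
  have : π * ((1 - η * θ') * Φ) = (1 - η * θ') * π * Φ := by ring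
  linarith

theorem sample (H : SimpleGraph V) (p : V → ℝ) (hp0 : ∀ v, 0 ≤ p v) (κ : ℝ)
    (hpκ : ∀ v, p v ≤ κ) (S : Finset V) (hS : ∑ v ∈ S, p v = 1) (D : Finset V) (θ : ℝ)
    (hD : ∀ d ∈ D, θ ≤ dens H p S d) (K : ℕ) (hK : (K : ℝ) * κ < 1) (η : ℝ) (hη0 : 0 < η)
    (hη1 : η < 1) (hθ : 0 ≤ θ - K * κ) (hlog : Real.log (D.card : ℝ) ≤ η ^ 2 * K) :
    ∃ P ⊆ S, P.card = K ∧ ∀ d ∈ D, (θ - K * κ - 2 * η) * K ≤ (cnt H P d : ℝ) := by
  set θ' := θ - K * κ with hθ'
  rcases D.eq_empty_or_nonempty with hDe | hDne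
  · -- need a set of size K in S
    have hcard : K ≤ S.card := by
      by_contra hlt
      push Not at hlt
      have h1 : ∑ v ∈ S, p v ≤ ∑ _v ∈ S, κ := Finset.sum_le_sum fun v _ => hpκ v
      rw [Finset.sum_const, nsmul_eq_mul, hS] at h1
      have hκ0 : 0 ≤ κ := by
        by_contra hneg
        push Not at hneg
        have h1 : ∑ v ∈ S, p v ≤ 0 := Finset.sum_nonpos fun v _ => (hpκ v).trans hneg.le
        linarith
      have h2 : (S.card : ℝ) * κ ≤ K * κ :=
        mul_le_mul_of_nonneg_right (by exact_mod_cast hlt.le) hκ0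
      linarith
    obtain ⟨P, hP, hPc⟩ := Finset.exists_subset_card_eq hcard
    exact ⟨P, hP, hPc, by simp [hDe]⟩
  obtain ⟨d0, hd0⟩ := hDne
  have hθ1 : θ' ≤ 1 := by
    have hκ0 : 0 ≤ κ := by
      by_contra hneg
      push Not at hneg
      have h1 : ∑ v ∈ S, p v ≤ 0 := Finset.sum_nonpos fun v _ => (hpκ v).trans hneg.le
      linarith
    have h1 := hD d0 hd0
    have h2 := dens_le H p hp0 S d0
    have h3 : 0 ≤ (K : ℝ) * κ := mul_nonneg (Nat.cast_nonneg _) hκ0
    linarith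
  have hr0 : 0 < 1 - η * θ' := by nlinarith
  have main : ∀ j : ℕ, j ≤ K → ∃ P ⊆ S, P.card = j ∧
      ∑ d ∈ D, (1 - η) ^ cnt H P d ≤ (D.card : ℝ) * (1 - η * θ') ^ j := by
    intro j
    induction j with
    | zero =>
      intro _
      refine ⟨∅, Finset.empty_subset _, rfl, ?_⟩
      simp [cnt]
    | succ j ih =>
      intro hj
      obtain ⟨P, hPS, hPc, hP⟩ := ih (by omega)
      obtain ⟨u, huS, huP, hu⟩ := sample_step H p hp0 κ hpκ S hS D θ hD K hK η hη0 hη1 hθ P hPS
        (by omega)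
      refine ⟨insert u P, Finset.insert_subset huS hPS, ?_, ?_⟩
      · rw [Finset.card_insert_of_notMem huP, hPc]
      · calc _ ≤ (1 - η * θ') * ∑ d ∈ D, (1 - η) ^ cnt H P d := hu
          _ ≤ (1 - η * θ') * ((D.card : ℝ) * (1 - η * θ') ^ j) :=
            mul_le_mul_of_nonneg_left hP hr0.le
          _ = _ := by rw [pow_succ]; ring
  obtain ⟨P, hPS, hPc, hP⟩ := main K le_rfl
  refine ⟨P, hPS, hPc, fun d hd => ?_⟩
  have h1 : (1 - η) ^ cnt H P d ≤ (D.card : ℝ) * (1 - η * θ') ^ K := by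
    refine le_trans ?_ hP
    exact Finset.single_le_sum (f := fun d => (1 - η) ^ cnt H P d)
      (fun i _ => pow_nonneg (by linarith) _) hd
  have hDpos : (0 : ℝ) < D.card := by
    exact_mod_cast Finset.card_pos.mpr ⟨d, hd⟩
  have h2 := Real.log_le_log (pow_pos (by linarith) _) h1
  rw [Real.log_mul hDpos.ne' (pow_pos hr0 _).ne', Real.log_pow, Real.log_pow] at h2
  have h3 : Real.log (1 - η * θ') ≤ - (η * θ') := by
    have := Real.log_le_sub_one_of_pos hr0
    linarith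
  have h4 : 1 - (1 - η)⁻¹ ≤ Real.log (1 - η) := Real.one_sub_inv_le_log_of_pos (by linarith)
  have h5 : 1 - (1 - η)⁻¹ = - (η / (1 - η)) := by
    have : (1 - η) ≠ 0 := by linarith
    field_simp
    ring
  rw [h5] at h4
  have hc0 : (0 : ℝ) ≤ cnt H P d := Nat.cast_nonneg _
  have hK0 : (0 : ℝ) ≤ K := Nat.cast_nonneg _
  have h6 : (cnt H P d : ℝ) * (- (η / (1 - η))) ≤ η ^ 2 * K + K * (- (η * θ')) := by
    calc (cnt H P d : ℝ) * (- (η / (1 - η))) ≤ cnt H P d * Real.log (1 - η) :=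
          mul_le_mul_of_nonneg_left h4 hc0
      _ ≤ Real.log (D.card : ℝ) + K * Real.log (1 - η * θ') := h2
      _ ≤ η ^ 2 * K + K * (- (η * θ')) := by
          have := mul_le_mul_of_nonneg_left h3 hK0
          linarith
  have h7 : (θ' - η) * K ≤ (cnt H P d : ℝ) / (1 - η) := by
    have h8 : η * ((θ' - η) * K) ≤ η * ((cnt H P d : ℝ) / (1 - η)) := by
      have : (cnt H P d : ℝ) * (- (η / (1 - η))) = - (η * ((cnt H P d : ℝ) / (1 - η))) := by ring
      rw [this] at h6
      nlinarith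
    exact le_of_mul_le_mul_left h8 hη0
  rw [le_div_iff₀ (by linarith)] at h7
  have h9 : (θ' - 2 * η) * K ≤ (θ' - η) * K * (1 - η) := by
    have : (θ' - η) * K * (1 - η) - (θ' - 2 * η) * K = K * (η * (1 - θ') + η ^ 2) := by ring
    have h10 : 0 ≤ K * (η * (1 - θ') + η ^ 2) := by
      apply mul_nonneg hK0
      have := mul_nonneg hη0.le (sub_nonneg.mpr hθ1)
      positivity
    linarith
  linarith

end Pool.Agent.X330.RF
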