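import Mathlib
import Pool.Agent.X330.RF.Sample
set_option autoImplicit false
open Finset
open scoped Classical

namespace Pool.Agent.X330.RF

/-- a star packing with centres `c i` and leaf sets `L i`, `i₀ ≤ i < i₁` -/
structure Pk {V : Type} (H : SimpleGraph V) (s : ℕ → ℕ) (i₀ i₁ : ℕ) (c : ℕ → V)
    (L : ℕ → Finset V) : Prop where
  inj : ∀ i ∈ Ico i₀ i₁, ∀ j ∈ Ico i₀ i₁, c i = c j → i = j
  card : ∀ i ∈ Ico i₀ i₁, (L i).card = s i
  adj : ∀ i ∈ Ico i₀ i₁, ∀ v ∈ L i, H.Adj (c i) v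
  disj : ∀ i ∈ Ico i₀ i₁, ∀ j ∈ Ico i₀ i₁, i ≠ j → Disjoint (L i) (L j)
  ncl : ∀ i ∈ Ico i₀ i₁, ∀ j ∈ Ico i₀ i₁, c i ∉ L j

variable {V : Type}

/-- the set of vertices used by a packing -/
noncomputable def used (i₀ i₁ : ℕ) (c : ℕ → V) (L : ℕ → Finset V) : Finset V :=
  (Ico i₀ i₁).image c ∪ (Ico i₀ i₁).biUnion L

theorem card_biUnion_of_disj (s : ℕ → ℕ) (i₀ i₁ : ℕ) (L : ℕ → Finset V)
    (hcard : ∀ i ∈ Ico i₀ i₁, (L i).card = s i)
    (hdisj : ∀ i ∈ Ico i₀ i₁, ∀ j ∈ Ico i₀ i₁, i ≠ j → Disjoint (L i) (L j)) :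
    ((Ico i₀ i₁).biUnion L).card = ∑ i ∈ Ico i₀ i₁, s i := by
  rw [Finset.card_biUnion (fun i hi j hj hij => hdisj i hi j hj hij)]
  exact Finset.sum_congr rfl hcard

theorem Pk.card_used {H : SimpleGraph V} {s : ℕ → ℕ} {i₀ i₁ : ℕ} {c : ℕ → V}
    {L : ℕ → Finset V} (h : Pk H s i₀ i₁ c L) :
    (used i₀ i₁ c L).card = ∑ i ∈ Ico i₀ i₁, (s i + 1) := by
  unfold used
  rw [Finset.card_union_of_disjoint, card_biUnion_of_disj s i₀ i₁ L h.card h.disj,
    Finset.card_image_of_injOn (fun i hi j hj hij => h.inj i hi j hj hij), Finset.sum_add_distrib]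
  · simp; ring
  · rw [Finset.disjoint_left]
    intro v hv hv'
    rw [Finset.mem_image] at hv
    rw [Finset.mem_biUnion] at hv'
    obtain ⟨i, hi, rfl⟩ := hv
    obtain ⟨j, hj, hv'⟩ := hv'
    exact h.ncl i hi j hj hv'

theorem mem_used_c {i₀ i₁ : ℕ} {c : ℕ → V} {L : ℕ → Finset V} {i : ℕ} (hi : i ∈ Ico i₀ i₁) :
    c i ∈ used i₀ i₁ c L :=
  Finset.mem_union_left _ (Finset.mem_image_of_mem _ hi)

theorem mem_used_L {i₀ i₁ : ℕ} {c : ℕ → V} {L : ℕ → Finset V} {i : ℕ} (hi : i ∈ Ico i₀ i₁)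
    {v : V} (hv : v ∈ L i) : v ∈ used i₀ i₁ c L :=
  Finset.mem_union_right _ (Finset.mem_biUnion.mpr ⟨i, hi, hv⟩)

theorem Pk.append {H : SimpleGraph V} {s : ℕ → ℕ} {i₀ i₁ i₂ : ℕ} {c c' : ℕ → V}
    {L L' : ℕ → Finset V} (h : Pk H s i₀ i₁ c L) (h' : Pk H s i₁ i₂ c' L')
    (hd : Disjoint (used i₀ i₁ c L) (used i₁ i₂ c' L')) :
    Pk H s i₀ i₂ (fun i => if i < i₁ then c i else c' i)
      (fun i => if i < i₁ then L i else L' i) := by
  rw [Finset.disjoint_left] at hd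
  have hsp : ∀ i ∈ Ico i₀ i₂, (i < i₁ ∧ i ∈ Ico i₀ i₁) ∨ (¬ i < i₁ ∧ i ∈ Ico i₁ i₂) := by
    intro i hi
    rw [Finset.mem_Ico] at hi
    by_cases h1 : i < i₁
    · left; exact ⟨h1, Finset.mem_Ico.mpr ⟨hi.1, h1⟩⟩
    · right; exact ⟨h1, Finset.mem_Ico.mpr ⟨by omega, hi.2⟩⟩
  constructor
  · intro i hi j hj hij
    rcases hsp i hi with ⟨h1, h2⟩ | ⟨h1, h2⟩ <;> rcases hsp j hj with ⟨h3, h4⟩ | ⟨h3, h4⟩
    · simp only [h1, h3, if_true] at hij
      exact h.inj i h2 j h4 hij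
    · simp only [h1, h3, if_true, if_false] at hij
      exact absurd (hij ▸ mem_used_c (c := c) (L := L) h2) (fun hh => hd hh (mem_used_c h4))
    · simp only [h1, h3, if_true, if_false] at hij
      exact absurd (hij.symm ▸ mem_used_c (c := c) (L := L) h4) (fun hh => hd hh (mem_used_c h2))
    · simp only [h1, h3, if_false] at hij
      exact h'.inj i h2 j h4 hij
  · intro i hi
    rcases hsp i hi with ⟨h1, h2⟩ | ⟨h1, h2⟩
    · simp only [h1, if_true]; exact h.card i h2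
    · simp only [h1, if_false]; exact h'.card i h2
  · intro i hi
    rcases hsp i hi with ⟨h1, h2⟩ | ⟨h1, h2⟩
    · simp only [h1, if_true]; exact h.adj i h2
    · simp only [h1, if_false]; exact h'.adj i h2
  · intro i hi j hj hij
    rcases hsp i hi with ⟨h1, h2⟩ | ⟨h1, h2⟩ <;> rcases hsp j hj with ⟨h3, h4⟩ | ⟨h3, h4⟩
    · simp only [h1, h3, if_true]; exact h.disj i h2 j h4 hij
    · simp only [h1, h3, if_true, if_false]
      rw [Finset.disjoint_left]
      intro v hv hv'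
      exact hd (mem_used_L h2 hv) (mem_used_L h4 hv')
    · simp only [h1, h3, if_true, if_false]
      rw [Finset.disjoint_left]
      intro v hv hv'
      exact hd (mem_used_L h4 hv') (mem_used_L h2 hv)
    · simp only [h1, h3, if_false]; exact h'.disj i h2 j h4 hij
  · intro i hi j hj
    rcases hsp i hi with ⟨h1, h2⟩ | ⟨h1, h2⟩ <;> rcases hsp j hj with ⟨h3, h4⟩ | ⟨h3, h4⟩
    · simp only [h1, h3, if_true]; exact h.ncl i h2 j h4
    · simp only [h1, h3, if_true, if_false]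
      intro hv
      exact hd (mem_used_c h2) (mem_used_L h4 hv)
    · simp only [h1, h3, if_true, if_false]
      intro hv
      exact hd (mem_used_L h4 hv) (mem_used_c h2)
    · simp only [h1, h3, if_false]; exact h'.ncl i h2 j h4

theorem Pk.single {H : SimpleGraph V} {s : ℕ → ℕ} {i : ℕ} {u : V} {M : Finset V}
    (hM : M.card = s i) (hadj : ∀ v ∈ M, H.Adj u v) :
    Pk H s i (i + 1) (fun _ => u) (fun _ => M) := by
  have h1 : ∀ j ∈ Ico i (i + 1), j = i := by
    intro j hj; rw [Finset.mem_Ico] at hj; omega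
  refine ⟨fun j hj k hk _ => by rw [h1 j hj, h1 k hk], fun j hj => by rw [h1 j hj, hM],
    fun j _ => hadj, fun j hj k hk hjk => absurd (by rw [h1 j hj, h1 k hk]) hjk,
    fun j _ k _ hu => H.loopless.irrefl u (hadj u hu)⟩

theorem Pk.mono_s {H : SimpleGraph V} {s s' : ℕ → ℕ} {i₀ i₁ : ℕ} {c : ℕ → V}
    {L : ℕ → Finset V} (h : Pk H s i₀ i₁ c L) (hs : ∀ i ∈ Ico i₀ i₁, s i = s' i) :
    Pk H s' i₀ i₁ c L :=
  ⟨h.inj, fun i hi => by rw [h.card i hi, hs i hi], h.adj, h.disj, h.ncl⟩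

/-- double counting: some `u ∈ S` has at least `ρ |A|` neighbours in `A` -/
theorem exists_rich (H : SimpleGraph V) (S A : Finset V) (hS : S.Nonempty) (β ρ : ℝ)
    (hβ : ∀ d ∈ A, ((S.filter (fun u => ¬ H.Adj u d)).card : ℝ) ≤ β)
    (hρ : β ≤ (1 - ρ) * (S.card : ℝ)) :
    ∃ u ∈ S, ρ * (A.card : ℝ) ≤ ((A.filter (fun d => H.Adj u d)).card : ℝ) := by
  by_contra hcon
  push Not at hcon
  have h1 : ∑ u ∈ S, ((A.filter (fun d => H.Adj u d)).card : ℝ) < ∑ _u ∈ S, ρ * (A.card : ℝ) :=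
    Finset.sum_lt_sum_of_nonempty hS hcon
  have h2 : ∑ u ∈ S, ((A.filter (fun d => H.Adj u d)).card : ℝ) =
      ∑ d ∈ A, ((S.filter (fun u => H.Adj u d)).card : ℝ) := by
    simp only [Finset.card_filter, Nat.cast_sum]
    exact Finset.sum_comm
  have h3 : ∑ _d ∈ A, ρ * (S.card : ℝ) ≤ ∑ d ∈ A, ((S.filter (fun u => H.Adj u d)).card : ℝ) := by
    apply Finset.sum_le_sum
    intro d hd
    have h4 := hβ d hd
    have h5 : ((S.filter (fun u => H.Adj u d)).card : ℝ) +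
        ((S.filter (fun u => ¬ H.Adj u d)).card : ℝ) = S.card := by
      exact_mod_cast Finset.card_filter_add_card_filter_not (s := S) (fun u => H.Adj u d)
    linarith
  simp only [Finset.sum_const, nsmul_eq_mul] at h1 h3
  have h6 : (A.card : ℝ) * (ρ * S.card) = S.card * (ρ * A.card) := by ring
  linarith

theorem greedy (H : SimpleGraph V) (P A : Finset V) (hPA : Disjoint P A) (s : ℕ → ℕ)
    (β ρ : ℝ) (hρ1 : ρ ≤ 1)
    (hβ : ∀ d ∈ A, ((P.filter (fun u => ¬ H.Adj u d)).card : ℝ) ≤ β) (i₀ : ℕ) (hV : Nonempty V)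
    (j : ℕ) (hjP : j ≤ P.card) (hj : β ≤ (1 - ρ) * ((P.card : ℝ) - j + 1))
    (hs : ∀ i ∈ Ico i₀ (i₀ + j), (s i : ℝ) ≤ ρ * ((A.card : ℝ) - ∑ l ∈ Ico i₀ i, (s l : ℝ))) :
    ∃ c L, Pk H s i₀ (i₀ + j) c L ∧ (∀ i ∈ Ico i₀ (i₀ + j), c i ∈ P) ∧
      (∀ i ∈ Ico i₀ (i₀ + j), L i ⊆ A) := by
  induction j with
  | zero =>
    refine ⟨fun _ => hV.some, fun _ => ∅, ⟨?_, ?_, ?_, ?_, ?_⟩, ?_, ?_⟩ <;> simp
  | succ j ih =>
    obtain ⟨c, L, hPk, hc, hL⟩ := ih (by omega) (by
      refine hj.trans ?_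
      apply mul_le_mul_of_nonneg_left _ (by linarith)
      push_cast; linarith) (fun i hi => hs i (by
        rw [Finset.mem_Ico] at hi ⊢; omega))
    set C := (Ico i₀ (i₀ + j)).image c with hC
    set U := (Ico i₀ (i₀ + j)).biUnion L with hU
    have hCP : C ⊆ P := by
      intro v hv
      rw [hC, Finset.mem_image] at hv
      obtain ⟨i, hi, rfl⟩ := hv
      exact hc i hi
    have hUA : U ⊆ A := by
      intro v hv
      rw [hU, Finset.mem_biUnion] at hv
      obtain ⟨i, hi, hv⟩ := hv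
      exact hL i hi hv
    have hCc : C.card = j := by
      rw [hC, Finset.card_image_of_injOn (fun i hi j hj hij => hPk.inj i hi j hj hij)]
      simp
    have hUc : U.card = ∑ i ∈ Ico i₀ (i₀ + j), s i :=
      card_biUnion_of_disj s _ _ L hPk.card hPk.disj
    have hSc : (P \ C).card = P.card - j := by
      rw [Finset.card_sdiff_of_subset hCP, hCc]
    have hSc' : ((P \ C).card : ℝ) = P.card - j := by
      rw [hSc, Nat.cast_sub (by omega)]
    have hAc' : ((A \ U).card : ℝ) = A.card - ∑ l ∈ Ico i₀ (i₀ + j), (s l : ℝ) := by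
      rw [Finset.card_sdiff_of_subset hUA, Nat.cast_sub (Finset.card_le_card hUA), hUc]
      push_cast; ring
    obtain ⟨u, huS, hu⟩ := exists_rich H (P \ C) (A \ U)
      (by rw [← Finset.card_pos, hSc]; omega) β ρ
      (fun d hd => le_trans (by
        exact_mod_cast Finset.card_le_card (Finset.filter_subset_filter _ Finset.sdiff_subset))
        (hβ d (Finset.mem_sdiff.mp hd).1)) (by
          rw [hSc']; refine hj.trans (le_of_eq ?_); push_cast; ring)
    have hsj := hs (i₀ + j) (by rw [Finset.mem_Ico]; omega)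
    rw [← hAc'] at hsj
    have hsn : s (i₀ + j) ≤ ((A \ U).filter (fun d => H.Adj u d)).card := by
      exact_mod_cast hsj.trans hu
    obtain ⟨M, hM, hMc⟩ := Finset.exists_subset_card_eq hsn
    rw [Finset.mem_sdiff] at huS
    have hMA : M ⊆ A \ U := hM.trans (Finset.filter_subset _ _)
    have hsing : Pk H s (i₀ + j) (i₀ + j + 1) (fun _ => u) (fun _ => M) :=
      Pk.single hMc (fun v hv => (Finset.mem_filter.mp (hM hv)).2)
    have hdis : Disjoint (used i₀ (i₀ + j) c L) (used (i₀ + j) (i₀ + j + 1) (fun _ => u)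
        (fun _ => M)) := by
      rw [Finset.disjoint_left]
      intro v hv hv'
      have hv2 : v = u ∨ v ∈ M := by
        simp only [used, Finset.mem_union, Finset.mem_image, Finset.mem_biUnion] at hv'
        rcases hv' with ⟨i, _, h⟩ | ⟨i, _, h⟩
        · exact Or.inl h.symm
        · exact Or.inr h
      have hv1 : v ∈ C ∨ v ∈ U := Finset.mem_union.mp hv
      rw [Finset.disjoint_left] at hPA
      rcases hv2 with rfl | hv2
      · rcases hv1 with h | h
        · exact huS.2 h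
        · exact hPA huS.1 (hUA h)
      · have := Finset.mem_sdiff.mp (hMA hv2)
        rcases hv1 with h | h
        · exact hPA (hCP h) this.1
        · exact this.2 h
    refine ⟨_, _, hPk.append hsing hdis, ?_, ?_⟩
    · intro i hi
      rw [Finset.mem_Ico] at hi
      by_cases h1 : i < i₀ + j
      · simp only [h1, if_true]; exact hc i (Finset.mem_Ico.mpr ⟨hi.1, h1⟩)
      · simp only [h1, if_false]; exact huS.1
    · intro i hi
      rw [Finset.mem_Ico] at hi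
      by_cases h1 : i < i₀ + j
      · simp only [h1, if_true]; exact hL i (Finset.mem_Ico.mpr ⟨hi.1, h1⟩)
      · simp only [h1, if_false]; exact hMA.trans Finset.sdiff_subset

end Pool.Agent.X330.RF
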