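import Mathlib
import Pool.Agent.X330.RF.Pk
set_option autoImplicit false
open Finset
open scoped Classical

namespace Pool.Agent.X330.RF

open SimpleGraph

/-- vertex type of the star forest -/
abbrev SV (s : ℕ → ℕ) (k : ℕ) : Type := Σ i : Fin k, Fin (s i + 1)

/-- the star forest with star sizes `s 0, …, s (k-1)` -/
def SFor (s : ℕ → ℕ) (k : ℕ) : SimpleGraph (SV s k) :=
  SimpleGraph.fromRel (fun x y => x.1 = y.1 ∧ x.2.val = 0)

theorem SV_card (s : ℕ → ℕ) (k : ℕ) : Fintype.card (SV s k) = ∑ i ∈ Ico 0 k, (s i + 1) := by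
  rw [Fintype.card_sigma]
  simp only [Fintype.card_fin]
  rw [Fin.sum_univ_eq_sum_range (fun i => s i + 1) k, Finset.range_eq_Ico]

theorem SFor_noiso (s : ℕ → ℕ) (k : ℕ) (hs : ∀ i ∈ Ico 0 k, 1 ≤ s i) (x : SV s k) :
    ∃ y, (SFor s k).Adj x y := by
  obtain ⟨i, a⟩ := x
  have hi : 1 ≤ s i := hs i (Finset.mem_Ico.mpr ⟨Nat.zero_le _, i.2⟩)
  by_cases ha : a.val = 0
  · refine ⟨⟨i, ⟨1, by omega⟩⟩, ?_⟩
    unfold SFor
    rw [SimpleGraph.fromRel_adj]
    refine ⟨?_, Or.inl ⟨rfl, ha⟩⟩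
    intro h
    have h1 : a = ⟨1, by omega⟩ := by simpa using h
    rw [h1] at ha
    simp at ha
  · refine ⟨⟨i, ⟨0, by omega⟩⟩, ?_⟩
    unfold SFor
    rw [SimpleGraph.fromRel_adj]
    refine ⟨?_, Or.inr ⟨rfl, rfl⟩⟩
    intro h
    have h1 : a = ⟨0, by omega⟩ := by simpa using h
    rw [h1] at ha
    simp at ha

theorem SFor_contained {V : Type} (H : SimpleGraph V) (s : ℕ → ℕ) (k : ℕ) (c : ℕ → V)
    (L : ℕ → Finset V) (h : Pk H s 0 k c L) : SFor s k ⊑ H := by
  have hm : ∀ i : Fin k, (i : ℕ) ∈ Ico 0 k := fun i => Finset.mem_Ico.mpr ⟨Nat.zero_le _, i.2⟩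
  let E : (i : Fin k) → (L i) ≃ Fin (s i) := fun i => Finset.equivFinOfCardEq (h.card i (hm i))
  let φ : SV s k → V := fun x => Fin.cases (motive := fun _ => V) (c x.1)
    (fun j => ((E x.1).symm j : V)) x.2
  have hφ0 : ∀ i : Fin k, φ ⟨i, 0⟩ = c i := fun i => rfl
  have hφs : ∀ (i : Fin k) (j : Fin (s i)), φ ⟨i, j.succ⟩ = ((E i).symm j : V) := fun i j => rfl
  have hφL : ∀ (i : Fin k) (j : Fin (s i)), φ ⟨i, j.succ⟩ ∈ L i := fun i j => by
    rw [hφs]; exact ((E i).symm j).2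
  have hinj : Function.Injective φ := by
    rintro ⟨i, a⟩ ⟨j, b⟩ hab
    induction a using Fin.cases with
    | zero =>
      induction b using Fin.cases with
      | zero =>
        rw [hφ0, hφ0] at hab
        have h1 : (i : ℕ) = j := h.inj i (hm i) j (hm j) hab
        have h2 : i = j := Fin.ext h1
        subst h2
        rfl
      | succ b =>
        rw [hφ0] at hab
        exact absurd (hab ▸ hφL j b) (h.ncl i (hm i) j (hm j))
    | succ a =>
      induction b using Fin.cases with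
      | zero =>
        rw [hφ0] at hab
        exact absurd (hab ▸ hφL i a) (h.ncl j (hm j) i (hm i))
      | succ b =>
        have h1 := hφL i a
        have h2 := hφL j b
        by_cases hij : i = j
        · subst hij
          rw [hφs, hφs] at hab
          have h3 : (E i).symm a = (E i).symm b := Subtype.ext hab
          have h4 : a = b := (E i).symm.injective h3
          rw [h4]
        · rw [hab] at h1
          exact absurd h2 (Finset.disjoint_left.mp
            (h.disj i (hm i) j (hm j) (fun h => hij (Fin.ext h))) h1)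
  have hadj1 : ∀ (i : Fin k) (b : Fin (s i + 1)), b.val ≠ 0 → H.Adj (φ ⟨i, 0⟩) (φ ⟨i, b⟩) := by
    intro i b hb
    induction b using Fin.cases with
    | zero => exact absurd rfl hb
    | succ b =>
      rw [hφ0]
      exact h.adj i (hm i) _ (hφL i b)
  refine ⟨⟨⟨φ, ?_⟩, hinj⟩⟩
  rintro ⟨i, a⟩ ⟨j, b⟩ hxy
  unfold SFor at hxy
  rw [SimpleGraph.fromRel_adj] at hxy
  obtain ⟨hne, hxy⟩ := hxy
  rcases hxy with ⟨hij, ha⟩ | ⟨hij, hb⟩
  · simp only at hij ha
    subst hij
    have ha' : a = 0 := Fin.ext ha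
    subst ha'
    apply hadj1
    intro hb
    apply hne
    have hb' : b = 0 := Fin.ext hb
    rw [hb']
  · simp only at hij hb
    subst hij
    have hb' : b = 0 := Fin.ext hb
    subst hb'
    apply SimpleGraph.Adj.symm
    apply hadj1
    intro ha
    apply hne
    have ha' : a = 0 := Fin.ext ha
    rw [ha']

/-- a star forest on `Fin n` -/
theorem exists_forest (s : ℕ → ℕ) (k n : ℕ) (hn : n = ∑ i ∈ Ico 0 k, (s i + 1))
    (hs : ∀ i ∈ Ico 0 k, 1 ≤ s i) :
    ∃ G : SimpleGraph (Fin n), (∀ v, ∃ w, G.Adj v w) ∧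
      ∀ {V : Type} (H : SimpleGraph V), (∃ c L, Pk H s 0 k c L) → G ⊑ H := by
  have hc : Fintype.card (SV s k) = n := by rw [SV_card, hn]
  let e : SV s k ≃ Fin n := Fintype.equivFinOfCardEq hc
  refine ⟨(SFor s k).comap e.symm, ?_, ?_⟩
  · intro v
    obtain ⟨y, hy⟩ := SFor_noiso s k hs (e.symm v)
    refine ⟨e y, ?_⟩
    rw [SimpleGraph.comap_adj, Equiv.symm_apply_apply]
    exact hy
  · rintro V H ⟨c, L, h⟩
    exact ((SimpleGraph.Iso.comap e.symm (SFor s k)).toCopy.isContained).trans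
      (SFor_contained H s k c L h)

end Pool.Agent.X330.RF
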