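import Mathlib
set_option autoImplicit false
open Finset
open scoped Classical

namespace Pool.Agent.X330.RF

variable {V : Type} [Fintype V]

theorem prod_ite_card (C : Finset V) (a b : ℕ) :
    ∏ v : V, (if v ∈ C then a else b) = a ^ C.card * b ^ (Fintype.card V - C.card) := by
  rw [Finset.prod_ite, Finset.prod_const, Finset.prod_const]
  have h1 : (univ : Finset V).filter (fun v => v ∈ C) = C := by
    ext v; simp
  have h2 : (univ : Finset V).filter (fun v => v ∉ C) = univ \ C := by
    ext v; simp
  rw [h1, h2, Finset.card_sdiff_of_subset (Finset.subset_univ _), Finset.card_univ]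

theorem card_agree (C : Finset V) (g : V → Bool) :
    ((univ : Finset (V → Bool)).filter (fun r => ∀ u ∈ C, r u = g u)).card =
      2 ^ (Fintype.card V - C.card) := by
  have h1 : (univ : Finset (V → Bool)).filter (fun r => ∀ u ∈ C, r u = g u) =
      Fintype.piFinset (fun u => if u ∈ C then {g u} else univ) := by
    ext r
    simp only [Finset.mem_filter, Finset.mem_univ, true_and, Fintype.mem_piFinset]
    constructor
    · intro h u
      by_cases hu : u ∈ C
      · simp [hu, h u hu]
      · simp [hu]
    · intro h u hu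
      have := h u
      simpa [hu] using this
  rw [h1, Fintype.card_piFinset]
  have h2 : ∀ u : V, (if u ∈ C then ({g u} : Finset Bool) else univ).card =
      if u ∈ C then 1 else 2 := by
    intro u
    split_ifs <;> simp
  simp only [h2]
  rw [prod_ite_card, one_pow, one_mul]

theorem card_disagree (C : Finset V) (g : V → Bool) :
    (((univ : Finset (V → Bool)).filter (fun r => ∃ u ∈ C, r u ≠ g u)).card : ℝ) =
      (2 : ℝ) ^ (Fintype.card V) * (1 - (1 / 2) ^ C.card) := by
  have h1 := Finset.card_filter_add_card_filter_not (s := (univ : Finset (V → Bool)))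
    (fun r => ∀ u ∈ C, r u = g u)
  rw [card_agree] at h1
  have h2 : (univ : Finset (V → Bool)).filter (fun r => ¬ ∀ u ∈ C, r u = g u) =
      (univ : Finset (V → Bool)).filter (fun r => ∃ u ∈ C, r u ≠ g u) := by
    apply Finset.filter_congr
    intro r _
    push Not
    rfl
  rw [h2] at h1
  have h3 : Fintype.card (V → Bool) = 2 ^ (Fintype.card V) := by simp
  rw [Finset.card_univ, h3] at h1
  have h4 : ((2 : ℝ) ^ (Fintype.card V - C.card)) +
      (((univ : Finset (V → Bool)).filter (fun r => ∃ u ∈ C, r u ≠ g u)).card : ℝ) =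
      (2 : ℝ) ^ (Fintype.card V) := by exact_mod_cast h1
  have h5 : C.card ≤ Fintype.card V := by
    rw [← Finset.card_univ]; exact Finset.card_le_card (Finset.subset_univ _)
  have h6 : (2 : ℝ) ^ (Fintype.card V) = 2 ^ (Fintype.card V - C.card) * 2 ^ C.card := by
    rw [← pow_add, Nat.sub_add_cancel h5]
  have h7 : (2 : ℝ) ^ C.card * (1 / 2) ^ C.card = 1 := by
    rw [← mul_pow]; norm_num
  have h8 : (2 : ℝ) ^ (Fintype.card V) * (1 / 2) ^ C.card = 2 ^ (Fintype.card V - C.card) := by
    rw [h6, mul_assoc, h7, mul_one]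
  rw [mul_sub, mul_one, h8]
  linarith

theorem card_bad (C A : Finset V) (hCA : Disjoint C A)
    (Q : (V → V → Bool) → V → Finset (V → Bool))
    (hQ : ∀ ω ω' v, (∀ u ∈ C, ω u = ω' u) → Q ω v = Q ω' v) (q : ℕ)
    (hq : ∀ ω, ∀ v ∈ A, (Q ω v).card ≤ q) :
    ((univ : Finset (V → V → Bool)).filter (fun ω => ∀ v ∈ A, ω v ∈ Q ω v)).card ≤
      (q ^ A.card * (2 ^ Fintype.card V) ^ (Fintype.card V - C.card - A.card)) *
        (2 ^ Fintype.card V) ^ C.card := by
  set S := (univ : Finset (V → V → Bool)).filter (fun ω => ∀ v ∈ A, ω v ∈ Q ω v) with hS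
  set π : (V → V → Bool) → (V → V → Bool) := fun ω u => if u ∈ C then ω u else (fun _ => false)
    with hπ
  have hB : Fintype.card (V → Bool) = 2 ^ (Fintype.card V) := by simp
  have himg : (S.image π).card ≤ (2 ^ Fintype.card V) ^ C.card := by
    have h1 : S.image π ⊆ Fintype.piFinset
        (fun u => if u ∈ C then (univ : Finset (V → Bool)) else {fun _ => false}) := by
      intro ρ hρ
      rw [Finset.mem_image] at hρ
      obtain ⟨ω, -, rfl⟩ := hρ
      rw [Fintype.mem_piFinset]
      intro u
      by_cases hu : u ∈ C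
      · simp [hu]
      · simp [hu, hπ]
    refine (Finset.card_le_card h1).trans ?_
    rw [Fintype.card_piFinset]
    have h2 : ∀ u : V, (if u ∈ C then (univ : Finset (V → Bool)) else {fun _ => false}).card =
        if u ∈ C then 2 ^ Fintype.card V else 1 := by
      intro u
      split_ifs
      · rw [Finset.card_univ, hB]
      · simp
    simp only [h2]
    rw [prod_ite_card, one_pow, mul_one]
  have hfib : ∀ ρ ∈ S.image π, (S.filter (fun ω => π ω = ρ)).card ≤
      q ^ A.card * (2 ^ Fintype.card V) ^ (Fintype.card V - C.card - A.card) := by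
    intro ρ _
    have h1 : S.filter (fun ω => π ω = ρ) ⊆ Fintype.piFinset
        (fun v => if v ∈ C then ({ρ v} : Finset (V → Bool)) else if v ∈ A then Q ρ v else univ) := by
      intro ω hω
      rw [Finset.mem_filter, hS, Finset.mem_filter] at hω
      obtain ⟨⟨-, hω1⟩, hω2⟩ := hω
      rw [Fintype.mem_piFinset]
      intro v
      have hagree : ∀ u ∈ C, ω u = ρ u := by
        intro u hu
        rw [← hω2]
        simp [hπ, hu]
      by_cases hv : v ∈ C
      · simp [hv, hagree v hv]
      · by_cases hvA : v ∈ A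
        · simp only [hv, hvA, if_true, if_false]
          rw [← hQ ω ρ v hagree]
          exact hω1 v hvA
        · simp [hv, hvA]
    refine (Finset.card_le_card h1).trans ?_
    rw [Fintype.card_piFinset]
    have h2 : ∏ v : V, (if v ∈ C then ({ρ v} : Finset (V → Bool)) else
        if v ∈ A then Q ρ v else univ).card ≤
        ∏ v : V, (if v ∈ C then 1 else if v ∈ A then q else 2 ^ Fintype.card V) := by
      apply Finset.prod_le_prod'
      intro v _
      by_cases hv : v ∈ C
      · simp [hv]
      · by_cases hvA : v ∈ A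
        · simp only [hv, hvA, if_true, if_false]
          exact hq ρ v hvA
        · simp [hv, hvA]
    refine h2.trans (le_of_eq ?_)
    rw [Finset.prod_ite, Finset.prod_const_one, one_mul, Finset.prod_ite, Finset.prod_const,
      Finset.prod_const]
    have h3 : ((univ : Finset V).filter (fun v => v ∉ C)).filter (fun v => v ∈ A) = A := by
      ext v
      simp only [Finset.mem_filter, Finset.mem_univ, true_and]
      constructor
      · exact fun h => h.2
      · exact fun h => ⟨fun h' => Finset.disjoint_left.mp hCA h' h, h⟩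
    have h4 : ((univ : Finset V).filter (fun v => v ∉ C)).filter (fun v => v ∉ A) =
        (univ \ C) \ A := by
      ext v
      simp
    rw [h3, h4, Finset.card_sdiff_of_subset, Finset.card_sdiff_of_subset (Finset.subset_univ _),
      Finset.card_univ]
    intro v hv
    exact Finset.mem_sdiff.mpr ⟨Finset.mem_univ _, fun h => Finset.disjoint_left.mp hCA h hv⟩
  have := Finset.card_le_mul_card_image S _ hfib
  exact this.trans (Nat.mul_le_mul_left _ himg)

theorem card_bad_real (C A : Finset V) (hCA : Disjoint C A)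
    (Q : (V → V → Bool) → V → Finset (V → Bool))
    (hQ : ∀ ω ω' v, (∀ u ∈ C, ω u = ω' u) → Q ω v = Q ω' v)
    (hq : ∀ ω v, ((Q ω v).card : ℝ) = (2 : ℝ) ^ (Fintype.card V) * (1 - (1 / 2) ^ C.card)) :
    (((univ : Finset (V → V → Bool)).filter (fun ω => ∀ v ∈ A, ω v ∈ Q ω v)).card : ℝ) ≤
      ((2 : ℝ) ^ Fintype.card V) ^ Fintype.card V * (1 - (1 / 2) ^ C.card) ^ A.card := by
  rcases isEmpty_or_nonempty V with hV | hV
  · have hA : A = ∅ := Finset.eq_empty_of_isEmpty A
    subst hA
    simp
  obtain ⟨v0⟩ := hV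
  set q : ℕ := (Q (fun _ _ => false) v0).card with hqdef
  have hqq : ∀ ω v, (Q ω v).card = q := by
    intro ω v
    have h1 := hq ω v
    have h2 := hq (fun _ _ => false) v0
    rw [← h2] at h1
    exact_mod_cast h1
  have h1 := card_bad C A hCA Q hQ q (fun ω v _ => (hqq ω v).le)
  have h2 : (((univ : Finset (V → V → Bool)).filter (fun ω => ∀ v ∈ A, ω v ∈ Q ω v)).card : ℝ) ≤
      ((q : ℝ) ^ A.card * ((2 : ℝ) ^ Fintype.card V) ^ (Fintype.card V - C.card - A.card)) *
        ((2 : ℝ) ^ Fintype.card V) ^ C.card := by exact_mod_cast h1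
  refine h2.trans (le_of_eq ?_)
  have h3 : (q : ℝ) = (2 : ℝ) ^ (Fintype.card V) * (1 - (1 / 2) ^ C.card) := hq _ _
  rw [h3, mul_pow]
  have h4 : C.card + A.card ≤ Fintype.card V := by
    rw [← Finset.card_union_of_disjoint hCA, ← Finset.card_univ]
    exact Finset.card_le_card (Finset.subset_univ _)
  have h5 : ((2 : ℝ) ^ Fintype.card V) ^ Fintype.card V =
      ((2 : ℝ) ^ Fintype.card V) ^ A.card *
      ((2 : ℝ) ^ Fintype.card V) ^ (Fintype.card V - C.card - A.card) *
        ((2 : ℝ) ^ Fintype.card V) ^ C.card := by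
    rw [← pow_add, ← pow_add]
    congr 1
    omega
  rw [h5]
  ring

end Pool.Agent.X330.RF
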