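import Mathlib
import Pool.Agent.X330.RF.Count
set_option autoImplicit false
open Finset
open scoped Classical

namespace Pool.Agent.X330.RF

/-- the graph of a 0-1 matrix `ω`: `u ~ v` iff `ω u v ≠ ω v u` -/
def gr {V : Type} (ω : V → V → Bool) : SimpleGraph V where
  Adj u v := u ≠ v ∧ ω u v ≠ ω v u
  symm := ⟨fun _ _ h => ⟨h.1.symm, h.2.symm⟩⟩
  loopless := ⟨fun _ h => h.1 rfl⟩

variable {V : Type} [Fintype V]

/-- the `j`-th block of length `w` -/
noncomputable def blk (e : V ≃ Fin (Fintype.card V)) (w j : ℕ) : Finset V :=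
  (univ : Finset V).filter (fun v => j * w ≤ (e v).val ∧ (e v).val < (j + 1) * w)

theorem blk_card (e : V ≃ Fin (Fintype.card V)) (w j : ℕ) (h : (j + 1) * w ≤ Fintype.card V) :
    (blk e w j).card = w := by
  have h1 : (blk e w j).map (e.toEmbedding.trans Fin.valEmbedding) =
      Finset.Ico (j * w) ((j + 1) * w) := by
    ext v
    simp only [blk, Finset.mem_map, Finset.mem_filter, Finset.mem_univ, true_and,
      Function.Embedding.trans_apply, Equiv.coe_toEmbedding, Fin.valEmbedding_apply,
      Finset.mem_Ico]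
    constructor
    · rintro ⟨a, ha, rfl⟩
      exact ha
    · intro hv
      refine ⟨e.symm ⟨v, by omega⟩, ?_, ?_⟩
      · rw [Equiv.apply_symm_apply]; exact hv
      · rw [Equiv.apply_symm_apply]
  have h2 := Finset.card_map (s := blk e w j) (e.toEmbedding.trans Fin.valEmbedding)
  rw [h1, Nat.card_Ico] at h2
  rw [← h2]
  have : (j + 1) * w = j * w + w := by ring
  omega

theorem blk_inj (e : V ≃ Fin (Fintype.card V)) (w i j : ℕ) (v : V) (hi : v ∈ blk e w i)
    (hj : v ∈ blk e w j) : i = j := by
  simp only [blk, Finset.mem_filter, Finset.mem_univ, true_and] at hi hj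
  have h1 : i * w < (j + 1) * w := by omega
  have h2 : j * w < (i + 1) * w := by omega
  have h3 := Nat.lt_of_mul_lt_mul_right h1
  have h4 := Nat.lt_of_mul_lt_mul_right h2
  omega

theorem exists_graph (N T y w : ℕ) (hN : Fintype.card V = N) (hw : (y + 1) * w ≤ N)
    (hnum : 2 * (N : ℝ) ^ T * (y + 1) * (1 - (1 / 2) ^ T) ^ (w - T) < 1) :
    ∃ H : SimpleGraph V, ∀ C : Finset V, C.card = T →
      (y + 1 ≤ (((univ : Finset V) \ C).filter (fun v => ∀ u ∈ C, ¬ H.Adj u v)).card) ∧
      (y + 1 ≤ (((univ : Finset V) \ C).filter (fun v => ∀ u ∈ C, H.Adj u v)).card) := by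
  let e : V ≃ Fin (Fintype.card V) := Fintype.equivFin V
  set E1 : Finset V → ℕ → Finset (V → V → Bool) := fun C j =>
    (univ : Finset (V → V → Bool)).filter (fun ω => ∀ v ∈ blk e w j \ C,
      ω v ∈ (univ : Finset (V → Bool)).filter (fun r => ∃ u ∈ C, r u ≠ ω u v)) with hE1
  set E2 : Finset V → ℕ → Finset (V → V → Bool) := fun C j =>
    (univ : Finset (V → V → Bool)).filter (fun ω => ∀ v ∈ blk e w j \ C,
      ω v ∈ (univ : Finset (V → Bool)).filter (fun r => ∃ u ∈ C, r u ≠ !(ω u v))) with hE2
  set B : ℝ := ((2 : ℝ) ^ N) ^ N with hB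
  have hB0 : 0 < B := by positivity
  set ρ : ℝ := 1 - (1 / 2) ^ T with hρ
  have hρ0 : 0 ≤ ρ := by
    have : ((1 : ℝ) / 2) ^ T ≤ 1 := pow_le_one₀ (by norm_num) (by norm_num)
    linarith
  have hρ1 : ρ ≤ 1 := by
    have : 0 ≤ ((1 : ℝ) / 2) ^ T := by positivity
    linarith
  have hcE1 : ∀ C : Finset V, C.card = T → ∀ j ∈ range (y + 1),
      ((E1 C j).card : ℝ) ≤ B * ρ ^ (w - T) := by
    intro C hC j hj
    rw [Finset.mem_range] at hj
    have h1 := card_bad_real C (blk e w j \ C) Finset.disjoint_sdiff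
      (fun ω v => (univ : Finset (V → Bool)).filter (fun r => ∃ u ∈ C, r u ≠ ω u v))
      (by
        intro ω ω' v h
        apply Finset.filter_congr
        intro r _
        constructor
        · rintro ⟨u, hu, hr⟩; exact ⟨u, hu, by rw [← h u hu]; exact hr⟩
        · rintro ⟨u, hu, hr⟩; exact ⟨u, hu, by rw [h u hu]; exact hr⟩)
      (fun ω v => card_disagree C (fun u => ω u v))
    rw [hN, hC] at h1
    refine h1.trans ?_
    apply mul_le_mul_of_nonneg_left _ hB0.le
    apply pow_le_pow_of_le_one hρ0 hρ1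
    have h2 := Finset.le_card_sdiff C (blk e w j)
    rw [blk_card e w j (by rw [hN]; exact le_trans (Nat.mul_le_mul_right _ (by omega)) hw), hC] at h2
    exact h2
  have hcE2 : ∀ C : Finset V, C.card = T → ∀ j ∈ range (y + 1),
      ((E2 C j).card : ℝ) ≤ B * ρ ^ (w - T) := by
    intro C hC j hj
    rw [Finset.mem_range] at hj
    have h1 := card_bad_real C (blk e w j \ C) Finset.disjoint_sdiff
      (fun ω v => (univ : Finset (V → Bool)).filter (fun r => ∃ u ∈ C, r u ≠ !(ω u v)))
      (by
        intro ω ω' v h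
        apply Finset.filter_congr
        intro r _
        constructor
        · rintro ⟨u, hu, hr⟩; exact ⟨u, hu, by rw [← h u hu]; exact hr⟩
        · rintro ⟨u, hu, hr⟩; exact ⟨u, hu, by rw [h u hu]; exact hr⟩)
      (fun ω v => card_disagree C (fun u => !(ω u v)))
    rw [hN, hC] at h1
    refine h1.trans ?_
    apply mul_le_mul_of_nonneg_left _ hB0.le
    apply pow_le_pow_of_le_one hρ0 hρ1
    have h2 := Finset.le_card_sdiff C (blk e w j)
    rw [blk_card e w j (by rw [hN]; exact le_trans (Nat.mul_le_mul_right _ (by omega)) hw), hC] at h2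
    exact h2
  -- existence of a good matrix
  have hgood : ∃ ω : V → V → Bool, ∀ C : Finset V, C.card = T →
      ∀ j ∈ range (y + 1), ω ∉ E1 C j ∧ ω ∉ E2 C j := by
    by_contra hcon
    push Not at hcon
    set Bad := ((univ : Finset V).powersetCard T).biUnion
      (fun C => (range (y + 1)).biUnion (fun j => E1 C j ∪ E2 C j)) with hBad
    have h1 : (univ : Finset (V → V → Bool)) ⊆ Bad := by
      intro ω _
      obtain ⟨C, hC, j, hj, h2⟩ := hcon ω
      rw [hBad, Finset.mem_biUnion]
      refine ⟨C, Finset.mem_powersetCard.mpr ⟨Finset.subset_univ _, hC⟩, ?_⟩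
      rw [Finset.mem_biUnion]
      refine ⟨j, hj, ?_⟩
      rw [Finset.mem_union]
      by_cases h3 : ω ∈ E1 C j
      · exact Or.inl h3
      · exact Or.inr (h2 h3)
    have h2 : (Bad.card : ℝ) ≤ (N : ℝ) ^ T * ((y + 1) * (2 * (B * ρ ^ (w - T)))) := by
      have h3 : (Bad.card : ℝ) ≤ ∑ C ∈ (univ : Finset V).powersetCard T,
          ∑ j ∈ range (y + 1), (((E1 C j).card : ℝ) + (E2 C j).card) := by
        have h4 : Bad.card ≤ ∑ C ∈ (univ : Finset V).powersetCard T,
            ∑ j ∈ range (y + 1), ((E1 C j).card + (E2 C j).card) := by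
          refine Finset.card_biUnion_le.trans (Finset.sum_le_sum fun C _ => ?_)
          refine Finset.card_biUnion_le.trans (Finset.sum_le_sum fun j _ => ?_)
          exact Finset.card_union_le _ _
        exact_mod_cast h4
      refine h3.trans ?_
      have h5 : ∀ C ∈ (univ : Finset V).powersetCard T,
          ∑ j ∈ range (y + 1), (((E1 C j).card : ℝ) + (E2 C j).card) ≤
            (y + 1) * (2 * (B * ρ ^ (w - T))) := by
        intro C hC
        have hC' := (Finset.mem_powersetCard.mp hC).2
        have h6 : ∑ j ∈ range (y + 1), (((E1 C j).card : ℝ) + (E2 C j).card) ≤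
            ∑ _j ∈ range (y + 1), 2 * (B * ρ ^ (w - T)) := by
          apply Finset.sum_le_sum
          intro j hj
          have := hcE1 C hC' j hj
          have := hcE2 C hC' j hj
          linarith
        refine h6.trans (le_of_eq ?_)
        rw [Finset.sum_const, Finset.card_range, nsmul_eq_mul]
        push_cast
        ring
      refine (Finset.sum_le_sum h5).trans ?_
      rw [Finset.sum_const, Finset.card_powersetCard, nsmul_eq_mul, Finset.card_univ,
        hN]
      apply mul_le_mul_of_nonneg_right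
      · exact_mod_cast Nat.choose_le_pow N T
      · positivity
    have h3 : (Fintype.card (V → V → Bool) : ℝ) = B := by
      have h7 : Fintype.card (V → V → Bool) = (2 ^ N) ^ N := by
        rw [Fintype.card_fun, Fintype.card_fun, Fintype.card_bool, hN]
      rw [h7, hB]; push_cast; rfl
    have h4 := Finset.card_le_card h1
    rw [Finset.card_univ] at h4
    have h5 : B ≤ (N : ℝ) ^ T * ((y + 1) * (2 * (B * ρ ^ (w - T)))) := by
      rw [← h3]
      have h6 : (Fintype.card (V → V → Bool) : ℝ) ≤ Bad.card := by exact_mod_cast h4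
      rw [h3]
      rw [h3] at h6
      linarith
    have h6 : (N : ℝ) ^ T * ((y + 1) * (2 * (B * ρ ^ (w - T)))) =
        B * (2 * (N : ℝ) ^ T * (y + 1) * ρ ^ (w - T)) := by ring
    rw [h6] at h5
    have h7 : B * (2 * (N : ℝ) ^ T * (y + 1) * ρ ^ (w - T)) < B * 1 :=
      mul_lt_mul_of_pos_left hnum hB0
    linarith
  obtain ⟨ω, hω⟩ := hgood
  refine ⟨gr ω, fun C hC => ⟨?_, ?_⟩⟩
  · have hch : ∀ j ∈ range (y + 1), ∃ v ∈ blk e w j \ C, ∀ u ∈ C, ω v u = ω u v := by
      intro j hj
      have h1 := (hω C hC j hj).1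
      simp only [hE1, Finset.mem_filter, Finset.mem_univ, true_and] at h1
      push Not at h1
      exact h1
    obtain ⟨v0, -⟩ := hch 0 (by simp)
    have : Nonempty V := ⟨v0⟩
    choose! g hg1 hg2 using hch
    have h2 : (range (y + 1)).card ≤
        (((univ : Finset V) \ C).filter (fun v => ∀ u ∈ C, ¬ (gr ω).Adj u v)).card := by
      apply Finset.card_le_card_of_injOn g
      · intro j hj
        have hj' : j ∈ range (y + 1) := hj
        simp only [Finset.coe_filter, Set.mem_ofPred_eq]
        refine ⟨Finset.mem_sdiff.mpr ⟨Finset.mem_univ _, (Finset.mem_sdiff.mp (hg1 j hj')).2⟩, ?_⟩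
        intro u hu h3
        exact h3.2 (hg2 j hj' u hu).symm
      · intro i hi j hj hij
        have hi' : i ∈ range (y + 1) := hi
        have hj' : j ∈ range (y + 1) := hj
        have h3 := (Finset.mem_sdiff.mp (hg1 i hi')).1
        have h4 := (Finset.mem_sdiff.mp (hg1 j hj')).1
        rw [hij] at h3
        exact blk_inj e w i j _ h3 h4
    rwa [Finset.card_range] at h2
  · have hch : ∀ j ∈ range (y + 1), ∃ v ∈ blk e w j \ C, ∀ u ∈ C, ω v u = !(ω u v) := by
      intro j hj
      have h1 := (hω C hC j hj).2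
      simp only [hE2, Finset.mem_filter, Finset.mem_univ, true_and] at h1
      push Not at h1
      exact h1
    obtain ⟨v0, -⟩ := hch 0 (by simp)
    have : Nonempty V := ⟨v0⟩
    choose! g hg1 hg2 using hch
    have h2 : (range (y + 1)).card ≤
        (((univ : Finset V) \ C).filter (fun v => ∀ u ∈ C, (gr ω).Adj u v)).card := by
      apply Finset.card_le_card_of_injOn g
      · intro j hj
        have hj' : j ∈ range (y + 1) := hj
        simp only [Finset.coe_filter, Set.mem_ofPred_eq]
        refine ⟨Finset.mem_sdiff.mpr ⟨Finset.mem_univ _, (Finset.mem_sdiff.mp (hg1 j hj')).2⟩, ?_⟩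
        intro u hu
        refine ⟨fun h => (Finset.mem_sdiff.mp (hg1 j hj')).2 (h ▸ hu), ?_⟩
        rw [hg2 j hj' u hu]
        cases ω u (g j) <;> simp
      · intro i hi j hj hij
        have hi' : i ∈ range (y + 1) := hi
        have hj' : j ∈ range (y + 1) := hj
        have h3 := (Finset.mem_sdiff.mp (hg1 i hi')).1
        have h4 := (Finset.mem_sdiff.mp (hg1 j hj')).1
        rw [hij] at h3
        exact blk_inj e w i j _ h3 h4
    rwa [Finset.card_range] at h2

end Pool.Agent.X330.RF
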