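import Mathlib
import Pool.Agent.X330.RF.RandG
set_option autoImplicit false
open Finset
open scoped Classical

namespace Pool.Agent.X330.RF

open SimpleGraph

variable {V : Type} [Fintype V]

theorem few_uncovered (n y : ℕ) (hV : Fintype.card V = n + y) (G : SimpleGraph (Fin n))
    (hG : ∀ v, ∃ w, G.Adj v w) (C : Finset (Fin n)) (hC : ∀ u v, G.Adj u v → u ∈ C ∨ v ∈ C)
    (H : SimpleGraph V) (f : Fin n → V) (hf : Function.Injective f)
    (hadj : ∀ a b, G.Adj a b → H.Adj (f a) (f b)) (Z : Finset V)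
    (hZ : ∀ v ∈ Z, v ∉ C.image f ∧ ∀ u ∈ C.image f, ¬ H.Adj u v) : Z.card ≤ y := by
  have hdis : Disjoint Z ((univ : Finset (Fin n)).image f) := by
    rw [Finset.disjoint_left]
    intro z hz hz'
    rw [Finset.mem_image] at hz'
    obtain ⟨v, -, rfl⟩ := hz'
    obtain ⟨h1, h2⟩ := hZ _ hz
    obtain ⟨w, hw⟩ := hG v
    rcases hC v w hw with h3 | h3
    · exact h1 (Finset.mem_image_of_mem f h3)
    · exact h2 (f w) (Finset.mem_image_of_mem f h3) (hadj w v hw.symm)
  have h1 : (Z ∪ (univ : Finset (Fin n)).image f).card ≤ n + y := by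
    rw [← hV, ← Finset.card_univ]; exact Finset.card_le_card (Finset.subset_univ _)
  rw [Finset.card_union_of_disjoint hdis, Finset.card_image_of_injective _ hf, Finset.card_univ,
    Fintype.card_fin] at h1
  omega

/-- complete join of a clique on `A` with an independent set -/
def joinG (A : Finset V) : SimpleGraph V where
  Adj u v := u ≠ v ∧ (u ∈ A ∨ v ∈ A)
  symm := ⟨fun _ _ h => ⟨h.1.symm, h.2.symm⟩⟩
  loopless := ⟨fun _ h => h.1 rfl⟩

theorem lower_det (n y : ℕ) (hV : Fintype.card V = n + y) (G : SimpleGraph (Fin n))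
    (hG : ∀ v, ∃ w, G.Adj v w) (hyn : y + 1 ≤ n)
    (hR : ∃ H : SimpleGraph V, ∀ C : Finset V, C.card = y + 1 →
      (y + 1 ≤ (((univ : Finset V) \ C).filter (fun v => ∀ u ∈ C, ¬ H.Adj u v)).card) ∧
      (y + 1 ≤ (((univ : Finset V) \ C).filter (fun v => ∀ u ∈ C, H.Adj u v)).card)) :
    ∃ H : SimpleGraph V, ¬ G ⊑ H ∧ ¬ G ⊑ Hᶜ := by
  by_cases hcov : ∃ C : Finset (Fin n), C.card = y + 1 ∧ ∀ u v, G.Adj u v → u ∈ C ∨ v ∈ C
  · obtain ⟨C, hCc, hC⟩ := hcov
    obtain ⟨H, hH⟩ := hR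
    refine ⟨H, ?_, ?_⟩
    · rintro ⟨φ⟩
      have hinj : Function.Injective φ := φ.injective
      have h1 := (hH (C.image φ) (by rw [Finset.card_image_of_injective _ hinj, hCc])).1
      have h2 := few_uncovered n y hV G hG C hC H φ hinj (fun a b h => φ.toHom.map_adj h)
        (((univ : Finset V) \ C.image φ).filter (fun v => ∀ u ∈ C.image φ, ¬ H.Adj u v)) (by
          intro v hv
          rw [Finset.mem_filter, Finset.mem_sdiff] at hv
          exact ⟨hv.1.2, hv.2⟩)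
      omega
    · rintro ⟨φ⟩
      have hinj : Function.Injective φ := φ.injective
      have h1 := (hH (C.image φ) (by rw [Finset.card_image_of_injective _ hinj, hCc])).2
      have h2 := few_uncovered n y hV G hG C hC Hᶜ φ hinj (fun a b h => φ.toHom.map_adj h)
        (((univ : Finset V) \ C.image φ).filter (fun v => ∀ u ∈ C.image φ, H.Adj u v)) (by
          intro v hv
          rw [Finset.mem_filter, Finset.mem_sdiff] at hv
          refine ⟨hv.1.2, fun u hu h => ?_⟩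
          rw [SimpleGraph.compl_adj] at h
          exact h.2 (hv.2 u hu))
      omega
  · push Not at hcov
    obtain ⟨A, -, hAc⟩ := Finset.exists_subset_card_eq (s := (univ : Finset V)) (n := y + 1)
      (by rw [Finset.card_univ, hV]; omega)
    refine ⟨joinG A, ?_, ?_⟩
    · rintro ⟨φ⟩
      have hinj : Function.Injective φ := φ.injective
      set C0 := (univ : Finset (Fin n)).filter (fun v => φ v ∈ A) with hC0
      have h1 : C0.card ≤ y + 1 := by
        rw [← hAc, ← Finset.card_image_of_injective C0 hinj]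
        apply Finset.card_le_card
        intro z hz
        rw [Finset.mem_image] at hz
        obtain ⟨v, hv, rfl⟩ := hz
        exact (Finset.mem_filter.mp hv).2
      obtain ⟨C, hC1, -, hC2⟩ := Finset.exists_subsuperset_card_eq (Finset.subset_univ C0) h1
        (by rw [Finset.card_univ, Fintype.card_fin]; exact hyn)
      obtain ⟨u, v, huv, hu, hv⟩ := hcov C hC2
      have h2 : (joinG A).Adj (φ u) (φ v) := φ.toHom.map_adj huv
      rcases h2.2 with h3 | h3
      · exact hu (hC1 (Finset.mem_filter.mpr ⟨Finset.mem_univ _, h3⟩))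
      · exact hv (hC1 (Finset.mem_filter.mpr ⟨Finset.mem_univ _, h3⟩))
    · rintro ⟨φ⟩
      have hinj : Function.Injective φ := φ.injective
      have hnA : ∀ v, φ v ∉ A := by
        intro v hv
        obtain ⟨w, hw⟩ := hG v
        have h2 : (joinG A)ᶜ.Adj (φ v) (φ w) := φ.toHom.map_adj hw
        rw [SimpleGraph.compl_adj] at h2
        exact h2.2 ⟨h2.1, Or.inl hv⟩
      have hdis : Disjoint A ((univ : Finset (Fin n)).image φ) := by
        rw [Finset.disjoint_left]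
        intro z hz hz'
        rw [Finset.mem_image] at hz'
        obtain ⟨v, -, rfl⟩ := hz'
        exact hnA v hz
      have h1 : (A ∪ (univ : Finset (Fin n)).image φ).card ≤ n + y := by
        rw [← hV, ← Finset.card_univ]; exact Finset.card_le_card (Finset.subset_univ _)
      rw [Finset.card_union_of_disjoint hdis, Finset.card_image_of_injective _ hinj,
        Finset.card_univ, Fintype.card_fin] at h1
      omega

theorem lower_numeric (ε : ℝ) (hε : 0 < ε) (hε1 : ε < 1) : ∃ n₀ : ℕ, ∀ n ≥ n₀, ∀ y : ℕ,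
    (y : ℝ) < (1 - ε) * Real.logb 2 n → y + 1 ≤ n ∧ ∃ w : ℕ, (y + 1) * w ≤ n + y ∧
      2 * (((n + y : ℕ) : ℝ)) ^ (y + 1) * (y + 1) * (1 - (1 / 2) ^ (y + 1)) ^ (w - (y + 1)) < 1 := by
  have h1 := (isLittleO_log_rpow_atTop (show 0 < ε / 4 by linarith)).def
    (show (0 : ℝ) < 1 / 6 by norm_num)
  have h2 : ∀ᶠ n : ℕ in Filter.atTop, ‖Real.log (n : ℝ)‖ ≤ 1 / 6 * ‖(n : ℝ) ^ (ε / 4)‖ :=
    tendsto_natCast_atTop_atTop.eventually h1
  have h3 : ∀ᶠ n : ℕ in Filter.atTop, (10 : ℝ) ≤ Real.log n :=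
    (Real.tendsto_log_atTop.comp tendsto_natCast_atTop_atTop).eventually_ge_atTop 10
  obtain ⟨n₀, hn₀⟩ := Filter.eventually_atTop.mp (h2.and h3)
  refine ⟨max n₀ 2, fun n hn y hy => ?_⟩
  obtain ⟨ha, hb⟩ := hn₀ n ((le_max_left _ _).trans hn)
  have hn2 : 2 ≤ n := (le_max_right _ _).trans hn
  have hnr : (2 : ℝ) ≤ n := by exact_mod_cast hn2
  have hn0 : (0 : ℝ) < n := by linarith
  set lam := Real.log n with hlam
  have hF2 : 1296 * lam ^ 4 ≤ (n : ℝ) ^ ε := by
    rw [Real.norm_eq_abs, Real.norm_eq_abs, abs_of_nonneg (by linarith),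
      abs_of_nonneg (by positivity)] at ha
    have h4 : 6 * lam ≤ (n : ℝ) ^ (ε / 4) := by linarith
    have h5 : (6 * lam) ^ 4 ≤ ((n : ℝ) ^ (ε / 4)) ^ 4 := pow_le_pow_left₀ (by linarith) h4 4
    have h6 : ((n : ℝ) ^ (ε / 4)) ^ 4 = (n : ℝ) ^ ε := by
      rw [← Real.rpow_natCast, ← Real.rpow_mul hn0.le]
      congr 1
      push_cast; ring
    rw [h6] at h5
    have h7 : (6 * lam) ^ 4 = 1296 * lam ^ 4 := by ring
    linarith
  have hF3 : 1296 * lam ^ 4 ≤ n := by
    refine hF2.trans ?_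
    calc (n : ℝ) ^ ε ≤ (n : ℝ) ^ (1 : ℝ) := Real.rpow_le_rpow_of_exponent_le (by linarith) hε1.le
      _ = n := Real.rpow_one _
  have hlogb : Real.logb 2 n = lam / Real.log 2 := rfl
  have hl2 : 0.6931471803 < Real.log 2 := Real.log_two_gt_d9
  have hlogb0 : 0 ≤ Real.logb 2 n := by rw [hlogb]; positivity
  have hlogb1 : Real.logb 2 n ≤ 3 / 2 * lam := by
    rw [hlogb, div_le_iff₀ (by linarith)]
    nlinarith
  have hyl : (y : ℝ) + 1 ≤ 2 * lam := by
    have : (1 - ε) * Real.logb 2 n ≤ 1 * Real.logb 2 n :=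
      mul_le_mul_of_nonneg_right (by linarith) hlogb0
    linarith
  have hlam4 : lam ^ 2 ≤ lam ^ 4 := by
    apply pow_le_pow_right₀ (by linarith) (by norm_num)
  have hlam2 : 10 * lam ≤ lam ^ 2 := by nlinarith
  have hyn : y + 1 ≤ n := by
    have : ((y + 1 : ℕ) : ℝ) ≤ n := by
      push_cast
      linarith
    exact_mod_cast this
  refine ⟨hyn, (n + y) / (y + 1), ?_, ?_⟩
  · exact Nat.mul_div_le _ _
  set w := (n + y) / (y + 1) with hw
  have hw1 : (n : ℝ) / (2 * lam) - 1 ≤ w := by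
    have h4 : n + y < (y + 1) * (w + 1) := by
      rw [hw]; exact Nat.lt_mul_div_succ _ (by omega)
    have h5 : (n : ℝ) + y < (y + 1) * (w + 1) := by exact_mod_cast h4
    have h6 : (n : ℝ) ≤ (2 * lam) * (w + 1) := by
      have h7 : ((y : ℝ) + 1) * (w + 1) ≤ (2 * lam) * (w + 1) :=
        mul_le_mul_of_nonneg_right hyl (by positivity)
      have : (0 : ℝ) ≤ y := Nat.cast_nonneg _
      linarith
    have h7 : (n : ℝ) / (2 * lam) ≤ w + 1 := by
      rw [div_le_iff₀ (by linarith)]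
      linarith
    linarith
  have hwT : (n : ℝ) / (4 * lam) ≤ ((w - (y + 1) : ℕ) : ℝ) := by
    have h4 : (w : ℝ) ≤ ((w - (y + 1) : ℕ) : ℝ) + (y + 1) := by
      have : w ≤ (w - (y + 1)) + (y + 1) := by omega
      exact_mod_cast this
    have h5 : (n : ℝ) / (2 * lam) = n / (4 * lam) + n / (4 * lam) := by
      field_simp; ring
    have h6 : 1 + 2 * lam ≤ (n : ℝ) / (4 * lam) := by
      rw [le_div_iff₀ (by linarith)]
      nlinarith
    linarith
  have hpow2 : (1 / 2 : ℝ) * (n : ℝ) ^ (-(1 - ε)) ≤ (1 / 2) ^ (y + 1) := by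
    have h4 : (2 : ℝ) ^ (y : ℝ) ≤ (n : ℝ) ^ (1 - ε) := by
      have h5 : (2 : ℝ) ^ (y : ℝ) ≤ (2 : ℝ) ^ ((1 - ε) * Real.logb 2 n) :=
        Real.rpow_le_rpow_of_exponent_le (by norm_num) hy.le
      have h6 : (2 : ℝ) ^ ((1 - ε) * Real.logb 2 n) = (n : ℝ) ^ (1 - ε) := by
        rw [mul_comm, Real.rpow_mul (by norm_num), Real.rpow_logb (by norm_num) (by norm_num) hn0]
      rw [← h6]; exact h5
    rw [Real.rpow_natCast] at h4
    have h7 : ((1 : ℝ) / 2) ^ (y + 1) = (1 / 2) * (1 / 2 ^ y) := by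
      rw [pow_succ, div_pow, one_pow]; ring
    rw [h7]
    apply mul_le_mul_of_nonneg_left _ (by norm_num)
    rw [Real.rpow_neg hn0.le, ← one_div]
    exact one_div_le_one_div_of_le (by positivity) h4
  have hX : 125 * lam ^ 3 ≤ (1 / 2 : ℝ) ^ (y + 1) * ((w - (y + 1) : ℕ) : ℝ) := by
    have h4 : (1 / 2 : ℝ) * (n : ℝ) ^ (-(1 - ε)) * (n / (4 * lam)) ≤
        (1 / 2 : ℝ) ^ (y + 1) * ((w - (y + 1) : ℕ) : ℝ) := by
      apply mul_le_mul hpow2 hwT (by positivity) (by positivity)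
    refine le_trans ?_ h4
    have h5 : (n : ℝ) ^ (-(1 - ε)) * n = (n : ℝ) ^ ε := by
      nth_rewrite 2 [← Real.rpow_one (n : ℝ)]
      rw [← Real.rpow_add hn0]
      congr 1; ring
    have h6 : (1 / 2 : ℝ) * (n : ℝ) ^ (-(1 - ε)) * (n / (4 * lam)) = (n : ℝ) ^ ε / (8 * lam) := by
      rw [← h5]; field_simp; ring
    rw [h6, le_div_iff₀ (by linarith)]
    have h7 : 125 * lam ^ 3 * (8 * lam) = 1000 * lam ^ 4 := by ring
    have h8 : 0 ≤ lam ^ 4 := by positivity
    linarith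
  -- final estimate
  have hN1 : (((n + y : ℕ) : ℝ)) ≤ Real.exp (2 * lam) := by
    have h4 : Real.exp (2 * lam) = (n : ℝ) * n := by
      rw [two_mul, Real.exp_add, hlam, Real.exp_log hn0]
    rw [h4]
    have h5 : ((n + y : ℕ) : ℝ) ≤ 2 * n := by
      have : n + y ≤ 2 * n := by omega
      exact_mod_cast this
    nlinarith
  have hN2 : (((n + y : ℕ) : ℝ)) ^ (y + 1) ≤ Real.exp (4 * lam ^ 2) := by
    calc (((n + y : ℕ) : ℝ)) ^ (y + 1) ≤ (Real.exp (2 * lam)) ^ (y + 1) :=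
          pow_le_pow_left₀ (by positivity) hN1 _
      _ = Real.exp (((y + 1 : ℕ) : ℝ) * (2 * lam)) := by rw [← Real.exp_nat_mul]
      _ ≤ Real.exp (4 * lam ^ 2) := by
          apply Real.exp_le_exp.mpr
          push_cast
          nlinarith
  have hT : ((y : ℝ) + 1) ≤ Real.exp (2 * lam) := by
    have := Real.add_one_le_exp (2 * lam)
    linarith
  have h2e : (2 : ℝ) ≤ Real.exp 1 := by
    have := Real.add_one_le_exp (1 : ℝ)
    linarith
  have hpw : (1 - (1 / 2 : ℝ) ^ (y + 1)) ^ (w - (y + 1)) ≤ Real.exp (-(125 * lam ^ 3)) := by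
    have h4 : 1 - (1 / 2 : ℝ) ^ (y + 1) ≤ Real.exp (-((1 / 2 : ℝ) ^ (y + 1))) := by
      have := Real.add_one_le_exp (-((1 / 2 : ℝ) ^ (y + 1)))
      linarith
    have h5 : 0 ≤ 1 - (1 / 2 : ℝ) ^ (y + 1) := by
      have : ((1 : ℝ) / 2) ^ (y + 1) ≤ 1 := pow_le_one₀ (by norm_num) (by norm_num)
      linarith
    calc (1 - (1 / 2 : ℝ) ^ (y + 1)) ^ (w - (y + 1)) ≤
          (Real.exp (-((1 / 2 : ℝ) ^ (y + 1)))) ^ (w - (y + 1)) := pow_le_pow_left₀ h5 h4 _
      _ = Real.exp (((w - (y + 1) : ℕ) : ℝ) * (-((1 / 2 : ℝ) ^ (y + 1)))) := by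
          rw [← Real.exp_nat_mul]
      _ ≤ Real.exp (-(125 * lam ^ 3)) := by
          apply Real.exp_le_exp.mpr
          linarith
  calc 2 * (((n + y : ℕ) : ℝ)) ^ (y + 1) * (y + 1) * (1 - (1 / 2) ^ (y + 1)) ^ (w - (y + 1)) ≤
        Real.exp 1 * Real.exp (4 * lam ^ 2) * Real.exp (2 * lam) * Real.exp (-(125 * lam ^ 3)) := by
        have h5 : 0 ≤ (1 - (1 / 2 : ℝ) ^ (y + 1)) ^ (w - (y + 1)) := by
          apply pow_nonneg
          have : ((1 : ℝ) / 2) ^ (y + 1) ≤ 1 := pow_le_one₀ (by norm_num) (by norm_num)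
          linarith
        apply mul_le_mul _ hpw h5 (by positivity)
        apply mul_le_mul _ hT (by positivity) (by positivity)
        apply mul_le_mul h2e hN2 (by positivity) (by positivity)
    _ = Real.exp (1 + 4 * lam ^ 2 + 2 * lam + -(125 * lam ^ 3)) := by
        rw [Real.exp_add, Real.exp_add, Real.exp_add]
    _ < Real.exp 0 := by
        apply Real.exp_lt_exp.mpr
        nlinarith
    _ = 1 := Real.exp_zero

theorem lower (ε : ℝ) (hε : 0 < ε) (hε1 : ε < 1) : ∃ n₀ : ℕ, ∀ n ≥ n₀,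
    ∀ G : SimpleGraph (Fin n), (∀ v, ∃ w, G.Adj v w) → ∀ N : ℕ,
      (∀ H : SimpleGraph (Fin N), G ⊑ H ∨ G ⊑ Hᶜ) →
      (n : ℝ) + (1 - ε) * Real.logb 2 n ≤ N := by
  obtain ⟨n₀, hn₀⟩ := lower_numeric ε hε hε1
  refine ⟨n₀, fun n hn G hG N hN => ?_⟩
  by_contra hlt
  push Not at hlt
  by_cases hNn : N < n
  · have h1 : ∀ H : SimpleGraph (Fin N), ¬ G ⊑ H := by
      rintro H ⟨φ⟩
      have := Fintype.card_le_of_injective φ φ.injective
      simp at this
      omega
    rcases hN ⊥ with h | h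
    · exact h1 _ h
    · exact h1 _ h
  · obtain ⟨y, rfl⟩ : ∃ y, N = n + y := ⟨N - n, by omega⟩
    have hy : (y : ℝ) < (1 - ε) * Real.logb 2 n := by
      push_cast at hlt
      linarith
    obtain ⟨hyn, w, hw1, hw2⟩ := hn₀ n hn y hy
    have hR := exists_graph (V := Fin (n + y)) (n + y) (y + 1) y w (Fintype.card_fin _) hw1
      (by exact_mod_cast hw2)
    obtain ⟨H, hH1, hH2⟩ := lower_det (V := Fin (n + y)) n y (Fintype.card_fin _) G hG hyn hR
    rcases hN H with h | h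
    · exact hH1 h
    · exact hH2 h

end Pool.Agent.X330.RF
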