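import Mathlib
set_option autoImplicit false
open Finset
open scoped Classical

namespace Pool.Agent.X330.RF

open SimpleGraph

theorem ramsey_clique (M : ℕ) : ∀ a b : ℕ, a + b = M → ∃ N : ℕ, ∀ (V : Type) (H : SimpleGraph V)
    (U : Finset V), N ≤ U.card → (∃ S ⊆ U, S.card = a ∧ ∀ x ∈ S, ∀ y ∈ S, x ≠ y → H.Adj x y) ∨
      (∃ S ⊆ U, S.card = b ∧ ∀ x ∈ S, ∀ y ∈ S, x ≠ y → ¬ H.Adj x y) := by
  induction M with
  | zero =>
    intro a b hab
    refine ⟨0, fun V H U _ => Or.inl ⟨∅, Finset.empty_subset _, ?_, by simp⟩⟩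
    rw [Finset.card_empty]; omega
  | succ M ih =>
    intro a b hab
    rcases Nat.eq_zero_or_pos a with ha | ha
    · exact ⟨0, fun V H U _ => Or.inl ⟨∅, Finset.empty_subset _, by rw [Finset.card_empty]; omega,
        by simp⟩⟩
    rcases Nat.eq_zero_or_pos b with hb | hb
    · exact ⟨0, fun V H U _ => Or.inr ⟨∅, Finset.empty_subset _, by rw [Finset.card_empty]; omega,
        by simp⟩⟩
    obtain ⟨N1, h1⟩ := ih (a - 1) b (by omega)
    obtain ⟨N2, h2⟩ := ih a (b - 1) (by omega)
    refine ⟨N1 + N2 + 1, fun V H U hU => ?_⟩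
    have hne : U.Nonempty := by rw [← Finset.card_pos]; omega
    obtain ⟨v, hv⟩ := hne
    have hsplit : ((U.erase v).filter (fun w => H.Adj v w)).card +
        ((U.erase v).filter (fun w => ¬ H.Adj v w)).card = (U.erase v).card :=
      Finset.card_filter_add_card_filter_not _
    have hUe : (U.erase v).card = U.card - 1 := Finset.card_erase_of_mem hv
    by_cases hc : N1 ≤ ((U.erase v).filter (fun w => H.Adj v w)).card
    · rcases h1 V H _ hc with ⟨S, hS, hSc, hSa⟩ | ⟨S, hS, hSc, hSa⟩
      · left
        have hvS : v ∉ S := fun h => by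
          have := hS h
          simp at this
        refine ⟨insert v S, ?_, ?_, ?_⟩
        · apply Finset.insert_subset hv
          exact hS.trans ((Finset.filter_subset _ _).trans (Finset.erase_subset _ _))
        · rw [Finset.card_insert_of_notMem hvS, hSc]; omega
        · intro x hx y hy hxy
          rw [Finset.mem_insert] at hx hy
          rcases hx with rfl | hx <;> rcases hy with rfl | hy
          · exact absurd rfl hxy
          · exact (Finset.mem_filter.mp (hS hy)).2
          · exact ((Finset.mem_filter.mp (hS hx)).2).symm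
          · exact hSa x hx y hy hxy
      · right
        exact ⟨S, hS.trans ((Finset.filter_subset _ _).trans (Finset.erase_subset _ _)), hSc, hSa⟩
    · rcases h2 V H ((U.erase v).filter (fun w => ¬ H.Adj v w)) (by omega) with
        ⟨S, hS, hSc, hSa⟩ | ⟨S, hS, hSc, hSa⟩
      · left
        exact ⟨S, hS.trans ((Finset.filter_subset _ _).trans (Finset.erase_subset _ _)), hSc, hSa⟩
      · right
        have hvS : v ∉ S := fun h => by
          have := hS h
          simp at this
        refine ⟨insert v S, ?_, ?_, ?_⟩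
        · apply Finset.insert_subset hv
          exact hS.trans ((Finset.filter_subset _ _).trans (Finset.erase_subset _ _))
        · rw [Finset.card_insert_of_notMem hvS, hSc]; omega
        · intro x hx y hy hxy
          rw [Finset.mem_insert] at hx hy
          rcases hx with rfl | hx <;> rcases hy with rfl | hy
          · exact absurd rfl hxy
          · exact (Finset.mem_filter.mp (hS hy)).2
          · exact fun h => (Finset.mem_filter.mp (hS hx)).2 h.symm
          · exact hSa x hx y hy hxy

theorem contained_of_clique {n : ℕ} (G : SimpleGraph (Fin n)) {V : Type} (H : SimpleGraph V)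
    (S : Finset V) (hS : S.card = n) (hadj : ∀ x ∈ S, ∀ y ∈ S, x ≠ y → H.Adj x y) : G ⊑ H := by
  let E : S ≃ Fin n := Finset.equivFinOfCardEq hS
  have hinj : Function.Injective (fun v : Fin n => ((E.symm v : S) : V)) := by
    intro a b hab
    exact E.symm.injective (Subtype.ext hab)
  refine ⟨⟨⟨fun v => ((E.symm v : S) : V), ?_⟩, hinj⟩⟩
  intro a b hab
  exact hadj _ (E.symm a).2 _ (E.symm b).2 (fun h => hab.ne (hinj h))

theorem ramsey_exists {n : ℕ} (G : SimpleGraph (Fin n)) :
    ∃ N : ℕ, ∀ H : SimpleGraph (Fin N), G ⊑ H ∨ G ⊑ Hᶜ := by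
  obtain ⟨N, hN⟩ := ramsey_clique (n + n) n n rfl
  refine ⟨N, fun H => ?_⟩
  rcases hN (Fin N) H univ (by simp) with ⟨S, -, hS, hSa⟩ | ⟨S, -, hS, hSa⟩
  · left; exact contained_of_clique G H S hS hSa
  · right
    refine contained_of_clique G Hᶜ S hS (fun x hx y hy hxy => ?_)
    rw [SimpleGraph.compl_adj]
    exact ⟨hxy, hSa x hx y hy hxy⟩

end Pool.Agent.X330.RF
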