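import Mathlib
import Pool.Agent.X330.RF.Pk
set_option autoImplicit false
open Finset
open scoped Classical

namespace Pool.Agent.X330.RF

variable {V : Type}

/-- covering stars: centres outside `Tf`, leaves in `Y0`, pairwise disjoint leaf sets -/
structure EC (H : SimpleGraph V) (Tf Y0 : Finset V) (σ i₀ i₁ : ℕ) (u : ℕ → V)
    (M : ℕ → Finset V) : Prop where
  inj : ∀ i ∈ Ico i₀ i₁, ∀ j ∈ Ico i₀ i₁, u i = u j → i = j
  card : ∀ i ∈ Ico i₀ i₁, (M i).card = σ
  adj : ∀ i ∈ Ico i₀ i₁, ∀ v ∈ M i, H.Adj (u i) v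
  disj : ∀ i ∈ Ico i₀ i₁, ∀ j ∈ Ico i₀ i₁, i ≠ j → Disjoint (M i) (M j)
  notT : ∀ i ∈ Ico i₀ i₁, u i ∉ Tf
  sub : ∀ i ∈ Ico i₀ i₁, M i ⊆ Y0

theorem EC.card_mul {H : SimpleGraph V} {Tf Y0 : Finset V} {σ i₀ e : ℕ} {u : ℕ → V}
    {M : ℕ → Finset V} (h : EC H Tf Y0 σ i₀ (i₀ + e) u M) : e * σ ≤ Y0.card := by
  have h1 : ((Ico i₀ (i₀ + e)).biUnion M).card = ∑ _i ∈ Ico i₀ (i₀ + e), σ :=
    card_biUnion_of_disj (fun _ => σ) _ _ M h.card h.disj
  have h2 : (Ico i₀ (i₀ + e)).biUnion M ⊆ Y0 := by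
    intro v hv
    rw [Finset.mem_biUnion] at hv
    obtain ⟨i, hi, hv⟩ := hv
    exact h.sub i hi hv
  have h3 := Finset.card_le_card h2
  rw [h1] at h3
  simpa using h3

theorem EC.extend {H : SimpleGraph V} {Tf Y0 : Finset V} {σ i₀ e : ℕ} {u : ℕ → V}
    {M : ℕ → Finset V} (h : EC H Tf Y0 σ i₀ (i₀ + e) u M) (v : V) (hv : v ∉ Tf)
    (hvu : v ∉ (Ico i₀ (i₀ + e)).image u) (N : Finset V) (hN : N.card = σ)
    (hNY : N ⊆ Y0 \ (Ico i₀ (i₀ + e)).biUnion M) (hadj : ∀ w ∈ N, H.Adj v w) :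
    EC H Tf Y0 σ i₀ (i₀ + (e + 1)) (fun i => if i < i₀ + e then u i else v)
      (fun i => if i < i₀ + e then M i else N) := by
  have hsp : ∀ i ∈ Ico i₀ (i₀ + (e + 1)), (i < i₀ + e ∧ i ∈ Ico i₀ (i₀ + e)) ∨
      (¬ i < i₀ + e ∧ i = i₀ + e) := by
    intro i hi
    rw [Finset.mem_Ico] at hi
    by_cases h1 : i < i₀ + e
    · left; exact ⟨h1, Finset.mem_Ico.mpr ⟨hi.1, h1⟩⟩
    · right; exact ⟨h1, by omega⟩
  have hNd : ∀ i ∈ Ico i₀ (i₀ + e), Disjoint (M i) N := by
    intro i hi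
    rw [Finset.disjoint_left]
    intro w hw hw'
    exact (Finset.mem_sdiff.mp (hNY hw')).2 (Finset.mem_biUnion.mpr ⟨i, hi, hw⟩)
  constructor
  · intro i hi j hj hij
    rcases hsp i hi with ⟨h1, h2⟩ | ⟨h1, h2⟩ <;> rcases hsp j hj with ⟨h3, h4⟩ | ⟨h3, h4⟩
    · simp only [h1, h3, if_true] at hij
      exact h.inj i h2 j h4 hij
    · simp only [h1, h3, if_true, if_false] at hij
      exact absurd (Finset.mem_image.mpr ⟨i, h2, hij⟩) hvu
    · simp only [h1, h3, if_true, if_false] at hij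
      exact absurd (Finset.mem_image.mpr ⟨j, h4, hij.symm⟩) hvu
    · omega
  · intro i hi
    rcases hsp i hi with ⟨h1, h2⟩ | ⟨h1, h2⟩
    · simp only [h1, if_true]; exact h.card i h2
    · simp only [h1, if_false]; exact hN
  · intro i hi
    rcases hsp i hi with ⟨h1, h2⟩ | ⟨h1, h2⟩
    · simp only [h1, if_true]; exact h.adj i h2
    · simp only [h1, if_false]; exact hadj
  · intro i hi j hj hij
    rcases hsp i hi with ⟨h1, h2⟩ | ⟨h1, h2⟩ <;> rcases hsp j hj with ⟨h3, h4⟩ | ⟨h3, h4⟩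
    · simp only [h1, h3, if_true]; exact h.disj i h2 j h4 hij
    · simp only [h1, h3, if_true, if_false]; exact hNd i h2
    · simp only [h1, h3, if_true, if_false]; exact (hNd j h4).symm
    · omega
  · intro i hi
    rcases hsp i hi with ⟨h1, h2⟩ | ⟨h1, h2⟩
    · simp only [h1, if_true]; exact h.notT i h2
    · simp only [h1, if_false]; exact hv
  · intro i hi
    rcases hsp i hi with ⟨h1, h2⟩ | ⟨h1, h2⟩
    · simp only [h1, if_true]; exact h.sub i h2
    · simp only [h1, if_false]; exact hNY.trans Finset.sdiff_subset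

theorem ephase (H : SimpleGraph V) (hV : Nonempty V) (Tf Y0 : Finset V) (σ y₀ i₀ : ℕ) (hσ : 0 < σ) :
    ∃ e₁ u M, EC H Tf Y0 σ i₀ (i₀ + e₁) u M ∧
      ((Y0 \ (Ico i₀ (i₀ + e₁)).biUnion M).card ≤ y₀ ∨
        ∀ v, v ∉ Tf → v ∉ (Ico i₀ (i₀ + e₁)).image u →
          ((Y0 \ (Ico i₀ (i₀ + e₁)).biUnion M).filter (fun w => H.Adj v w)).card < σ) := by
  by_contra hcon
  push Not at hcon
  have hall : ∀ e : ℕ, ∃ u M, EC H Tf Y0 σ i₀ (i₀ + e) u M := by
    intro e
    induction e with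
    | zero =>
      refine ⟨fun _ => hV.some, fun _ => ∅, ⟨?_, ?_, ?_, ?_, ?_, ?_⟩⟩ <;> simp
    | succ e ih =>
      obtain ⟨u, M, hE⟩ := ih
      obtain ⟨-, v, hv, hvu, hc⟩ := hcon e u M hE
      obtain ⟨N, hN, hNc⟩ := Finset.exists_subset_card_eq hc
      exact ⟨_, _, hE.extend v hv hvu N hNc (hN.trans (Finset.filter_subset _ _))
        (fun w hw => (Finset.mem_filter.mp (hN hw)).2)⟩
  obtain ⟨u, M, hE⟩ := hall (Y0.card + 1)
  have h1 := hE.card_mul
  have h2 : Y0.card + 1 ≤ (Y0.card + 1) * σ := Nat.le_mul_of_pos_right _ hσ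
  omega

variable [Fintype V]

theorem stuck_case (H H' : SimpleGraph V) (hH : H' = Hᶜ) (hV : Nonempty V) (Y T : Finset V) (s : ℕ → ℕ)
    (k a σ : ℕ) (hY : k + a ≤ Y.card)
    (hst : ∀ v, v ∉ T → (Y.filter (fun w => H.Adj v w)).card < σ)
    (hσ : (σ : ℝ) ≤ 1 / 4 * ((a : ℝ) + 1))
    (hs : ∀ i ∈ Ico 0 k, (s i : ℝ) ≤ 3 / 4 * ((Fintype.card V : ℝ) - (k + a) - T.card -
      ∑ l ∈ Ico 0 i, (s l : ℝ))) :
    ∃ c L, Pk H' s 0 k c L := by
  obtain ⟨D, hD, hDc⟩ := Finset.exists_subset_card_eq hY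
  have hAc : (Fintype.card V : ℝ) - (k + a) - T.card ≤ (((univ : Finset V) \ (D ∪ T)).card : ℝ) := by
    have h1 : (univ : Finset V).card ≤ ((univ : Finset V) \ (D ∪ T)).card + (D ∪ T).card := by
      rw [← Finset.card_sdiff_add_card_eq_card (Finset.subset_univ (D ∪ T))]
    have h2 := Finset.card_union_le D T
    have h3 : Fintype.card V ≤ ((univ : Finset V) \ (D ∪ T)).card + (k + a) + T.card := by
      rw [Finset.card_univ] at h1; omega
    have h4 : (Fintype.card V : ℝ) ≤ (((univ : Finset V) \ (D ∪ T)).card : ℝ) + (k + a) + T.card := by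
      exact_mod_cast h3
    linarith
  obtain ⟨c, L, hPk, -, -⟩ := greedy H' D ((univ : Finset V) \ (D ∪ T)) (by
      rw [Finset.disjoint_left]
      intro v hv hv'
      exact (Finset.mem_sdiff.mp hv').2 (Finset.mem_union_left _ hv)) s (σ : ℝ) (3 / 4)
    (by norm_num) (by
      intro d hd
      rw [Finset.mem_sdiff, Finset.mem_union, not_or] at hd
      have h1 := hst d hd.2.2
      have h2 : D.filter (fun u => ¬ H'.Adj u d) ⊆ Y.filter (fun w => H.Adj d w) := by
        intro u hu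
        rw [Finset.mem_filter] at hu ⊢
        refine ⟨hD hu.1, ?_⟩
        have h3 : u ≠ d := fun h => hd.2.1 (h ▸ hu.1)
        have h4 := hu.2
        rw [hH, SimpleGraph.compl_adj] at h4
        push Not at h4
        exact (h4 h3).symm
      have h3 := Finset.card_le_card h2
      exact_mod_cast (h3.trans h1.le)) 0 hV k (by rw [hDc]; omega) (by
      rw [hDc]; push_cast; linarith) (by
      intro i hi
      rw [zero_add] at hi
      refine (hs i hi).trans ?_
      apply mul_le_mul_of_nonneg_left _ (by norm_num)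
      linarith)
  rw [zero_add] at hPk
  exact ⟨c, L, hPk⟩

theorem nonstuck_case (H : SimpleGraph V) (hV : Nonempty V) (s : ℕ → ℕ)
    (n x y₀ b k e e₁ h : ℕ) (hN : Fintype.card V = n + x) (hn : n = ∑ i ∈ Ico 0 k, (s i + 1))
    (hbk : b + e ≤ k) (hse : ∀ i ∈ Ico b (b + e), s i = h) (he₁ : e₁ ≤ e)
    (X P' : Finset V) (cB : ℕ → V) (LB CB : ℕ → Finset V)
    (hB : Pk H (fun i => s i + e) 0 b cB LB)
    (hcB : ∀ i ∈ Ico 0 b, cB i ∉ P') (hLB : ∀ i ∈ Ico 0 b, Disjoint (LB i) P')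
    (hLX : ∀ i ∈ Ico 0 b, Disjoint (LB i) X) (hCB : ∀ i ∈ Ico 0 b, CB i ⊆ LB i)
    (hCBc : ∀ i ∈ Ico 0 b, (CB i).card = s i) (u : ℕ → V) (M : ℕ → Finset V)
    (hE : EC H ((Ico 0 b).image cB ∪ P') ((X \ (Ico 0 b).image cB) \ P') (h + e) b (b + e₁) u M)
    (hY : (((X \ (Ico 0 b).image cB) \ P') \ (Ico b (b + e₁)).biUnion M).card ≤ y₀)
    (hP' : ∀ d, d ∉ X → d ∉ (Ico 0 b).image cB → (∀ i ∈ Ico 0 b, d ∉ CB i) →
      3 / 8 * (P'.card : ℝ) ≤ (cnt H P' d : ℝ))
    (hs : ∀ i ∈ Ico b k, 4 * s i + P'.card + e * e + y₀ ≤ x) (hg : 6 * (k - b) ≤ P'.card) :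
    ∃ c L, Pk H s 0 k c L := by
  set TB := (Ico 0 b).image cB with hTB
  set Y0 := (X \ TB) \ P' with hY0
  set U := (Ico b (b + e₁)).image u with hU
  have hUc : U.card ≤ e := by
    rw [hU]
    refine Finset.card_image_le.trans ?_
    simp; omega
  -- trimmed leaf sets
  have hex : ∀ i ∈ Ico 0 b, ∃ Z : Finset V, CB i \ U ⊆ Z ∧ Z ⊆ LB i \ U ∧ Z.card = s i := by
    intro i hi
    have h1 : CB i \ U ⊆ LB i \ U := Finset.sdiff_subset_sdiff (hCB i hi) le_rfl
    have h2 : (CB i \ U).card ≤ s i := by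
      rw [← hCBc i hi]; exact Finset.card_le_card Finset.sdiff_subset
    have h3 : s i ≤ (LB i \ U).card := by
      have h4 : (LB i).card = s i + e := hB.card i hi
      have h5 := Finset.le_card_sdiff U (LB i)
      omega
    exact Finset.exists_subsuperset_card_eq h1 h2 h3
  have hex2 : ∀ i ∈ Ico b (b + e₁), ∃ Z : Finset V, Z ⊆ M i \ U ∧ Z.card = s i := by
    intro i hi
    have h3 : s i ≤ (M i \ U).card := by
      have h4 := hE.card i hi
      have h5 := Finset.le_card_sdiff U (M i)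
      rw [hse i (by rw [Finset.mem_Ico] at hi ⊢; omega)]
      omega
    exact Finset.exists_subset_card_eq h3
  choose! Z1 hZ1a hZ1b hZ1c using hex
  choose! Z2 hZ2a hZ2b using hex2
  have hP1 : Pk H s 0 b cB Z1 := by
    refine ⟨hB.inj, hZ1c, ?_, ?_, ?_⟩
    · intro i hi v hv
      exact hB.adj i hi v (Finset.mem_sdiff.mp (hZ1b i hi hv)).1
    · intro i hi j hj hij
      exact Disjoint.mono ((hZ1b i hi).trans Finset.sdiff_subset)
        ((hZ1b j hj).trans Finset.sdiff_subset) (hB.disj i hi j hj hij)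
    · intro i hi j hj hc
      exact hB.ncl i hi j hj (Finset.mem_sdiff.mp (hZ1b j hj hc)).1
  have hP2 : Pk H s b (b + e₁) u Z2 := by
    refine ⟨hE.inj, hZ2b, ?_, ?_, ?_⟩
    · intro i hi v hv
      exact hE.adj i hi v (Finset.mem_sdiff.mp (hZ2a i hi hv)).1
    · intro i hi j hj hij
      exact Disjoint.mono ((hZ2a i hi).trans Finset.sdiff_subset)
        ((hZ2a j hj).trans Finset.sdiff_subset) (hE.disj i hi j hj hij)
    · intro i hi j hj hc
      exact (Finset.mem_sdiff.mp (hZ2a j hj hc)).2 (Finset.mem_image_of_mem _ hi)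
  have hd12 : Disjoint (used 0 b cB Z1) (used b (b + e₁) u Z2) := by
    rw [Finset.disjoint_left]
    intro v hv hv'
    simp only [used, Finset.mem_union] at hv hv'
    rcases hv with hv | hv
    · rcases hv' with hv' | hv'
      · rw [Finset.mem_image] at hv'
        obtain ⟨i, hi, rfl⟩ := hv'
        exact hE.notT i hi (Finset.mem_union_left _ hv)
      · rw [Finset.mem_biUnion] at hv'
        obtain ⟨i, hi, hv'⟩ := hv'
        have h1 := hE.sub i hi (Finset.mem_sdiff.mp (hZ2a i hi hv')).1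
        exact (Finset.mem_sdiff.mp (Finset.mem_sdiff.mp h1).1).2 hv
    · rw [Finset.mem_biUnion] at hv
      obtain ⟨i, hi, hv⟩ := hv
      have hvL := Finset.mem_sdiff.mp (hZ1b i hi hv)
      rcases hv' with hv' | hv'
      · exact hvL.2 hv'
      · rw [Finset.mem_biUnion] at hv'
        obtain ⟨j, hj, hv'⟩ := hv'
        have h1 := hE.sub j hj (Finset.mem_sdiff.mp (hZ2a j hj hv')).1
        have h2 := (Finset.mem_sdiff.mp (Finset.mem_sdiff.mp h1).1).1
        exact (Finset.disjoint_left.mp (hLX i hi)) hvL.1 h2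
  have hP12 := hP1.append hP2 hd12
  set c12 : ℕ → V := fun i => if i < b then cB i else u i with hc12
  set L12 : ℕ → Finset V := fun i => if i < b then Z1 i else Z2 i with hL12
  set W := used 0 (b + e₁) c12 L12 with hW
  have hWc : W.card = ∑ i ∈ Ico 0 (b + e₁), (s i + 1) := hP12.card_used
  -- facts about membership in W
  have hTW : ∀ v ∈ TB, v ∈ W := by
    intro v hv
    rw [hTB, Finset.mem_image] at hv
    obtain ⟨i, hi, rfl⟩ := hv
    have h1 : i < b := (Finset.mem_Ico.mp hi).2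
    have h2 : c12 i ∈ W := mem_used_c (Finset.mem_Ico.mpr ⟨Nat.zero_le _, by omega⟩)
    simpa [hc12, h1] using h2
  have hUW : ∀ v ∈ U, v ∈ W := by
    intro v hv
    rw [hU, Finset.mem_image] at hv
    obtain ⟨i, hi, rfl⟩ := hv
    have h1 : ¬ i < b := by have := (Finset.mem_Ico.mp hi).1; omega
    have h2 : c12 i ∈ W := mem_used_c (Finset.mem_Ico.mpr ⟨Nat.zero_le _, (Finset.mem_Ico.mp hi).2⟩)
    simpa [hc12, h1] using h2
  have hCW : ∀ i ∈ Ico 0 b, ∀ v ∈ CB i, v ∈ W := by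
    intro i hi v hv
    by_cases hvU : v ∈ U
    · exact hUW v hvU
    · have h1 : i < b := (Finset.mem_Ico.mp hi).2
      have h2 : v ∈ L12 i := by
        simp only [hL12, h1, if_true]
        exact hZ1a i hi (Finset.mem_sdiff.mpr ⟨hv, hvU⟩)
      exact mem_used_L (Finset.mem_Ico.mpr ⟨Nat.zero_le _, by omega⟩) h2
  have hWP : Disjoint W P' := by
    rw [Finset.disjoint_left]
    intro v hv hvP
    simp only [hW, used, Finset.mem_union, Finset.mem_image, Finset.mem_biUnion] at hv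
    rcases hv with ⟨i, hi, rfl⟩ | ⟨i, hi, hv⟩
    · by_cases h1 : i < b
      · simp only [hc12, h1, if_true] at hvP
        exact hcB i (Finset.mem_Ico.mpr ⟨Nat.zero_le _, h1⟩) hvP
      · simp only [hc12, h1, if_false] at hvP
        refine hE.notT i (Finset.mem_Ico.mpr ⟨by omega, (Finset.mem_Ico.mp hi).2⟩)
          (Finset.mem_union_right _ hvP)
    · by_cases h1 : i < b
      · simp only [hL12, h1, if_true] at hv
        have h2 : i ∈ Ico 0 b := Finset.mem_Ico.mpr ⟨Nat.zero_le _, h1⟩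
        exact Finset.disjoint_left.mp (hLB i h2) (Finset.mem_sdiff.mp (hZ1b i h2 hv)).1 hvP
      · simp only [hL12, h1, if_false] at hv
        have h2 : i ∈ Ico b (b + e₁) := Finset.mem_Ico.mpr ⟨by omega, (Finset.mem_Ico.mp hi).2⟩
        have h3 := hE.sub i h2 (Finset.mem_sdiff.mp (hZ2a i h2 hv)).1
        exact (Finset.mem_sdiff.mp h3).2 hvP
  -- the leftover part of X
  have hXsub : X \ (W ∪ P') ⊆ (Y0 \ (Ico b (b + e₁)).biUnion M) ∪
      (Ico b (b + e₁)).biUnion (fun i => M i \ Z2 i) := by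
    intro v hv
    rw [Finset.mem_sdiff, Finset.mem_union, not_or] at hv
    obtain ⟨hvX, hvW, hvP⟩ := hv
    have h1 : v ∈ Y0 := Finset.mem_sdiff.mpr ⟨Finset.mem_sdiff.mpr ⟨hvX, fun h => hvW (hTW v h)⟩, hvP⟩
    by_cases h2 : v ∈ (Ico b (b + e₁)).biUnion M
    · rw [Finset.mem_biUnion] at h2
      obtain ⟨i, hi, hvM⟩ := h2
      apply Finset.mem_union_right
      refine Finset.mem_biUnion.mpr ⟨i, hi, Finset.mem_sdiff.mpr ⟨hvM, fun h3 => hvW ?_⟩⟩
      have h4 : ¬ i < b := by have := (Finset.mem_Ico.mp hi).1; omega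
      have h5 : v ∈ L12 i := by simp only [hL12, h4, if_false]; exact h3
      exact mem_used_L (Finset.mem_Ico.mpr ⟨Nat.zero_le _, (Finset.mem_Ico.mp hi).2⟩) h5
    · exact Finset.mem_union_left _ (Finset.mem_sdiff.mpr ⟨h1, h2⟩)
  have hXc : (X \ (W ∪ P')).card ≤ y₀ + e * e := by
    refine (Finset.card_le_card hXsub).trans ((Finset.card_union_le _ _).trans ?_)
    have h1 : ((Ico b (b + e₁)).biUnion (fun i => M i \ Z2 i)).card ≤ e₁ * e := by
      refine Finset.card_biUnion_le.trans ?_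
      have h2 : ∀ i ∈ Ico b (b + e₁), (M i \ Z2 i).card ≤ e := by
        intro i hi
        rw [Finset.card_sdiff_of_subset ((hZ2a i hi).trans Finset.sdiff_subset), hE.card i hi,
          hZ2b i hi, hse i (by rw [Finset.mem_Ico] at hi ⊢; omega)]
        omega
      refine (Finset.sum_le_sum h2).trans ?_
      simp
    have h3 : e₁ * e ≤ e * e := Nat.mul_le_mul_right _ he₁
    omega
  set A := (univ : Finset V) \ ((W ∪ P') ∪ X) with hA
  have hAc : n + x ≤ A.card + (W.card + P'.card + (y₀ + e * e)) := by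
    have h1 : (univ : Finset V).card ≤ A.card + ((W ∪ P') ∪ X).card := by
      rw [hA, Finset.card_sdiff_add_card_eq_card (Finset.subset_univ _)]
    have h2 : ((W ∪ P') ∪ X).card = (W ∪ P').card + (X \ (W ∪ P')).card := by
      rw [← Finset.card_union_of_disjoint Finset.disjoint_sdiff, Finset.union_sdiff_self_eq_union]
    have h3 := Finset.card_union_le W P'
    rw [Finset.card_univ, hN] at h1
    omega
  obtain ⟨c3, L3, hP3, hc3, hL3⟩ := greedy H P' A (by
      rw [Finset.disjoint_left]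
      intro v hv hv'
      exact (Finset.mem_sdiff.mp hv').2 (Finset.mem_union_left _ (Finset.mem_union_right _ hv)))
    s (5 / 8 * (P'.card : ℝ)) (1 / 4) (by norm_num) (by
      intro d hd
      rw [hA, Finset.mem_sdiff, Finset.mem_union, Finset.mem_union, not_or, not_or] at hd
      have h1 := hP' d hd.2.2 (fun h => hd.2.1.1 (hTW d h))
        (fun i hi h => hd.2.1.1 (hCW i hi d h))
      have h5 : ((P'.filter (fun u => H.Adj u d)).card : ℝ) +
          ((P'.filter (fun u => ¬ H.Adj u d)).card : ℝ) = P'.card := by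
        exact_mod_cast Finset.card_filter_add_card_filter_not (s := P') (fun u => H.Adj u d)
      unfold cnt at h1
      linarith) (b + e₁) hV (k - (b + e₁)) (by omega) (by
      have h1 : (6 : ℝ) * ((k - (b + e₁) : ℕ) : ℝ) ≤ P'.card := by
        have : 6 * (k - (b + e₁)) ≤ P'.card := by omega
        exact_mod_cast this
      linarith) (by
      intro i hi
      have hki : b + e₁ + (k - (b + e₁)) = k := by omega
      rw [hki] at hi
      rw [Finset.mem_Ico] at hi
      have h1 := hs i (Finset.mem_Ico.mpr ⟨by omega, hi.2⟩)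
      have h2 : ∑ l ∈ Ico 0 k, (s l + 1) = ∑ l ∈ Ico 0 (b + e₁), (s l + 1) +
          ∑ l ∈ Ico (b + e₁) k, (s l + 1) :=
        (Finset.sum_Ico_consecutive _ (Nat.zero_le _) (by omega)).symm
      have h3 : ∑ l ∈ Ico (b + e₁) i, s l ≤ ∑ l ∈ Ico (b + e₁) k, (s l + 1) := by
        refine (Finset.sum_le_sum (fun l _ => Nat.le_succ (s l))).trans ?_
        apply Finset.sum_le_sum_of_subset
        intro l hl
        rw [Finset.mem_Ico] at hl ⊢
        omega
      have h4 : 4 * s i + ∑ l ∈ Ico (b + e₁) i, s l ≤ A.card := by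
        omega
      have h5 : (4 : ℝ) * s i + ∑ l ∈ Ico (b + e₁) i, (s l : ℝ) ≤ A.card := by
        exact_mod_cast h4
      linarith)
  have hki : b + e₁ + (k - (b + e₁)) = k := by omega
  rw [hki] at hP3 hc3 hL3
  have hd3 : Disjoint (used 0 (b + e₁) c12 L12) (used (b + e₁) k c3 L3) := by
    rw [Finset.disjoint_left]
    intro v hv hv'
    simp only [used, Finset.mem_union, Finset.mem_image, Finset.mem_biUnion] at hv'
    rcases hv' with ⟨i, hi, rfl⟩ | ⟨i, hi, hv'⟩
    · exact Finset.disjoint_left.mp hWP hv (hc3 i hi)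
    · have := hL3 i hi hv'
      rw [hA, Finset.mem_sdiff] at this
      exact this.2 (Finset.mem_union_left _ (Finset.mem_union_left _ hv))
  exact ⟨_, _, hP12.append hP3 hd3⟩

end Pool.Agent.X330.RF
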