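import Mathlib
import Pool.Agent.X330.RF.Process
set_option autoImplicit false
open Finset
open scoped Classical

namespace Pool.Agent.X330.RF

variable {V : Type} [Fintype V]

theorem process (H : SimpleGraph V) (hV : Nonempty V) (P X : Finset V) (s : ℕ → ℕ)
    (n x y₀ b k e h m a K K' R : ℕ) (δ : ℝ) (hδ0 : 0 < δ) (hδ : δ ≤ 1 / 100)
    (hN : Fintype.card V = n + x) (hn : n = ∑ i ∈ Ico 0 k, (s i + 1)) (hbk : b + e ≤ k)
    (hse : ∀ i ∈ Ico b (b + e), s i = h) (hPc : P.card = K) (hXc : X.card ≤ m)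
    (hm : m ≤ e * h) (hh : 0 < h)
    (hPd : ∀ d, d ∉ X → (1 / 2 - 4 * δ) * (K : ℝ) ≤ (cnt H P d : ℝ))
    (hbK : (b : ℝ) ≤ δ * K)
    (hsB : ∀ i ∈ Ico 0 b, ((s i : ℝ) + e) ≤ (1 / 2 - 6 * δ) *
      ((n : ℝ) + x - K - m - ∑ l ∈ Ico 0 i, ((s l : ℝ) + e)))
    (hK' : 32 * K' + b ≤ K) (hK'0 : 0 < K')
    (hR : n + x ≤ R + ∑ i ∈ Ico 0 b, (s i + 1)) (hlog : Real.log (R : ℝ) ≤ (K' : ℝ) / 4096)
    (hy : k + a ≤ y₀) (ha : ((h : ℝ) + e) ≤ 1 / 4 * ((a : ℝ) + 1))
    (hsI : ∀ i ∈ Ico 0 k, (s i : ℝ) ≤ 3 / 4 * (((n : ℝ) + x) - (k + a) - (b + K' + e) -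
      ∑ l ∈ Ico 0 i, (s l : ℝ)))
    (hsF : ∀ i ∈ Ico b k, 4 * s i + K' + e * e + y₀ ≤ x) (hg : 6 * (k - b) ≤ K') :
    (∃ c L, Pk H s 0 k c L) ∨ (∃ c L, Pk Hᶜ s 0 k c L) := by
  -- phase B
  have hbK2 : b ≤ K := by omega
  have hK0 : (0 : ℝ) ≤ K := Nat.cast_nonneg _
  have hAc : n + x ≤ ((univ : Finset V) \ (P ∪ X)).card + (K + m) := by
    have h1 : (univ : Finset V).card ≤ ((univ : Finset V) \ (P ∪ X)).card + (P ∪ X).card := by
      rw [Finset.card_sdiff_add_card_eq_card (Finset.subset_univ _)]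
    have h2 := Finset.card_union_le P X
    rw [Finset.card_univ, hN] at h1
    omega
  have hAc' : (n : ℝ) + x - K - m ≤ (((univ : Finset V) \ (P ∪ X)).card : ℝ) := by
    have : (n : ℝ) + x ≤ (((univ : Finset V) \ (P ∪ X)).card : ℝ) + (K + m) := by
      exact_mod_cast hAc
    linarith
  obtain ⟨cB, LB, hB, hcBP, hLBA⟩ := greedy H P ((univ : Finset V) \ (P ∪ X)) (by
      rw [Finset.disjoint_left]
      intro v hv hv'
      exact (Finset.mem_sdiff.mp hv').2 (Finset.mem_union_left _ hv))
    (fun i => s i + e) ((1 / 2 + 4 * δ) * (K : ℝ)) (1 / 2 - 6 * δ) (by linarith) (by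
      intro d hd
      rw [Finset.mem_sdiff, Finset.mem_union, not_or] at hd
      have h1 := hPd d hd.2.2
      have h5 : ((P.filter (fun u => H.Adj u d)).card : ℝ) +
          ((P.filter (fun u => ¬ H.Adj u d)).card : ℝ) = P.card := by
        exact_mod_cast Finset.card_filter_add_card_filter_not (s := P) (fun u => H.Adj u d)
      unfold cnt at h1
      rw [hPc] at h5
      linarith) 0 hV b (by rw [hPc]; exact hbK2) (by
      rw [hPc]
      have h1 : (1 - (1 / 2 - 6 * δ)) * ((1 - δ) * (K : ℝ)) ≤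
          (1 - (1 / 2 - 6 * δ)) * ((K : ℝ) - b + 1) := by
        apply mul_le_mul_of_nonneg_left _ (by linarith)
        linarith
      refine le_trans ?_ h1
      have h2 : (1 - (1 / 2 - 6 * δ)) * ((1 - δ) * (K : ℝ)) - (1 / 2 + 4 * δ) * (K : ℝ) =
        K * (δ * (3 / 2 - 6 * δ)) := by ring
      have h3 : 0 ≤ (K : ℝ) * (δ * (3 / 2 - 6 * δ)) := by
        apply mul_nonneg hK0
        apply mul_nonneg hδ0.le
        linarith
      linarith) (by
      intro i hi
      rw [zero_add] at hi
      have h1 := hsB i hi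
      push_cast
      refine h1.trans ?_
      apply mul_le_mul_of_nonneg_left _ (by linarith)
      linarith)
  rw [zero_add] at hB hcBP hLBA
  set TB := (Ico 0 b).image cB with hTB
  have hTBP : TB ⊆ P := by
    intro v hv
    rw [hTB, Finset.mem_image] at hv
    obtain ⟨i, hi, rfl⟩ := hv
    exact hcBP i hi
  have hTBc : TB.card = b := by
    rw [hTB, Finset.card_image_of_injOn (fun i hi j hj hij => hB.inj i hi j hj hij)]
    simp
  -- cores
  have hexC : ∀ i ∈ Ico 0 b, ∃ Z : Finset V, Z ⊆ LB i ∧ Z.card = s i := by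
    intro i hi
    have h4 : (LB i).card = s i + e := hB.card i hi
    exact Finset.exists_subset_card_eq (by omega)
  choose! CB hCB hCBc using hexC
  have hCore : Pk H s 0 b cB CB := by
    refine ⟨hB.inj, hCBc, fun i hi v hv => hB.adj i hi v (hCB i hi hv), ?_, ?_⟩
    · intro i hi j hj hij
      exact Disjoint.mono (hCB i hi) (hCB j hj) (hB.disj i hi j hj hij)
    · intro i hi j hj hc
      exact hB.ncl i hi j hj (hCB j hj hc)
  -- the small pool
  set S := P \ TB with hS
  have hSc : S.card + b = K := by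
    have := Finset.card_sdiff_add_card_eq_card hTBP
    rw [hTBc, hPc] at this
    exact this
  have hScpos : 0 < S.card := by omega
  have hScr : (0 : ℝ) < S.card := by exact_mod_cast hScpos
  set D := (univ : Finset V) \ (X ∪ used 0 b cB CB) with hD
  have hDc : D.card ≤ R := by
    have h1 : (univ : Finset V).card = D.card + (X ∪ used 0 b cB CB).card := by
      rw [hD, Finset.card_sdiff_add_card_eq_card (Finset.subset_univ _)]
    have h2 : (used 0 b cB CB).card ≤ (X ∪ used 0 b cB CB).card :=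
      Finset.card_le_card Finset.subset_union_right
    rw [hCore.card_used] at h2
    rw [Finset.card_univ, hN] at h1
    omega
  have hK'r : (K' : ℝ) * (1 / (S.card : ℝ)) ≤ 1 / 32 := by
    have h1 : (32 : ℝ) * K' ≤ S.card := by
      have : 32 * K' ≤ S.card := by omega
      exact_mod_cast this
    rw [mul_one_div, div_le_iff₀ hScr]
    linarith
  obtain ⟨P', hP'S, hP'c, hP'd⟩ := sample H (fun _ => 1 / (S.card : ℝ)) (fun _ => by positivity)
    (1 / (S.card : ℝ)) (fun _ => le_rfl) S (by
      rw [Finset.sum_const, nsmul_eq_mul]; field_simp) D (1 / 2 - 5 * δ) (by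
      intro d hd
      rw [hD, Finset.mem_sdiff, Finset.mem_union, not_or] at hd
      have h1 := hPd d hd.2.1
      have h2 : (cnt H P d : ℝ) ≤ cnt H S d + b := by
        have h3 : cnt H P d ≤ cnt H S d + b := by
          unfold cnt
          have h4 : P.filter (fun u => H.Adj u d) ⊆ S.filter (fun u => H.Adj u d) ∪ TB := by
            intro v hv
            rw [Finset.mem_filter] at hv
            by_cases h5 : v ∈ TB
            · exact Finset.mem_union_right _ h5
            · exact Finset.mem_union_left _ (Finset.mem_filter.mpr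
                ⟨Finset.mem_sdiff.mpr ⟨hv.1, h5⟩, hv.2⟩)
          have h6 := (Finset.card_le_card h4).trans (Finset.card_union_le _ _)
          rw [hTBc] at h6
          exact h6
        exact_mod_cast h3
      have h3 : dens H (fun _ => 1 / (S.card : ℝ)) S d = cnt H S d * (1 / (S.card : ℝ)) := by
        unfold dens cnt
        rw [← Finset.sum_filter, Finset.sum_const, nsmul_eq_mul]
      rw [h3, mul_one_div, le_div_iff₀ hScr]
      have h4 : (S.card : ℝ) ≤ K := by
        have : S.card ≤ K := by omega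
        exact_mod_cast this
      have h5 : (1 / 2 - 5 * δ) * (S.card : ℝ) ≤ (1 / 2 - 5 * δ) * K :=
        mul_le_mul_of_nonneg_left h4 (by linarith)
      linarith) K' (by linarith) (1 / 64) (by norm_num) (by norm_num) (by linarith) (by
      rcases Nat.eq_zero_or_pos D.card with h0 | h0
      · rw [h0, Nat.cast_zero, Real.log_zero]; positivity
      · have h1 : Real.log (D.card : ℝ) ≤ Real.log (R : ℝ) :=
          Real.log_le_log (by exact_mod_cast h0) (by exact_mod_cast hDc)
        norm_num
        linarith)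
  have hP'P : P' ⊆ P := hP'S.trans Finset.sdiff_subset
  have hP'T : Disjoint P' TB := by
    rw [Finset.disjoint_left]
    intro v hv
    exact (Finset.mem_sdiff.mp (hP'S hv)).2
  have hP'den : ∀ d, d ∉ X → d ∉ TB → (∀ i ∈ Ico 0 b, d ∉ CB i) →
      3 / 8 * (P'.card : ℝ) ≤ (cnt H P' d : ℝ) := by
    intro d hdX hdT hdC
    have hdD : d ∈ D := by
      rw [hD, Finset.mem_sdiff, Finset.mem_union, not_or]
      refine ⟨Finset.mem_univ _, hdX, ?_⟩
      simp only [used, Finset.mem_union, Finset.mem_biUnion, not_or, not_exists, not_and]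
      exact ⟨hdT, fun i hi => hdC i hi⟩
    refine le_trans ?_ (hP'd d hdD)
    rw [hP'c]
    apply mul_le_mul_of_nonneg_right _ (Nat.cast_nonneg _)
    linarith
  -- phase E
  obtain ⟨e₁, u, M, hE, halt⟩ := ephase H hV (TB ∪ P') ((X \ TB) \ P') (h + e) y₀ b (by omega)
  have he₁ : e₁ ≤ e := by
    have h1 := hE.card_mul
    have h2 : ((X \ TB) \ P').card ≤ m :=
      (Finset.card_le_card (Finset.sdiff_subset.trans Finset.sdiff_subset)).trans hXc
    by_contra hlt
    push Not at hlt
    have h3 : (e + 1) * (h + e) ≤ e₁ * (h + e) := Nat.mul_le_mul_right _ hlt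
    nlinarith
  by_cases hY : (((X \ TB) \ P') \ (Ico b (b + e₁)).biUnion M).card ≤ y₀
  · left
    refine nonstuck_case H hV s n x y₀ b k e e₁ h hN hn hbk hse he₁ X P' cB LB CB hB ?_ ?_ ?_
      hCB hCBc u M hE hY hP'den ?_ ?_
    · intro i hi hc
      exact Finset.disjoint_left.mp hP'T hc (Finset.mem_image_of_mem _ hi)
    · intro i hi
      rw [Finset.disjoint_left]
      intro v hv hv'
      exact (Finset.mem_sdiff.mp (hLBA i hi hv)).2 (Finset.mem_union_left _ (hP'P hv'))
    · intro i hi
      rw [Finset.disjoint_left]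
      intro v hv hv'
      exact (Finset.mem_sdiff.mp (hLBA i hi hv)).2 (Finset.mem_union_right _ hv')
    · intro i hi
      rw [hP'c]; exact hsF i hi
    · rw [hP'c]; exact hg
  · right
    have hst := halt.resolve_left hY
    set U := (Ico b (b + e₁)).image u with hU
    have hTc : ((TB ∪ P') ∪ U).card ≤ b + K' + e := by
      refine (Finset.card_union_le _ _).trans ?_
      have h1 := Finset.card_union_le TB P'
      have h2 : U.card ≤ e := by
        rw [hU]
        refine Finset.card_image_le.trans ?_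
        simp; omega
      omega
    refine stuck_case H Hᶜ rfl hV (((X \ TB) \ P') \ (Ico b (b + e₁)).biUnion M)
      ((TB ∪ P') ∪ U) s k a (h + e) (by omega) ?_ (by push_cast; exact ha) ?_
    · intro v hv
      rw [Finset.mem_union, not_or] at hv
      exact hst v hv.1 hv.2
    · intro i hi
      refine (hsI i hi).trans ?_
      apply mul_le_mul_of_nonneg_left _ (by norm_num)
      have h1 : ((((TB ∪ P') ∪ U).card : ℕ) : ℝ) ≤ b + K' + e := by exact_mod_cast hTc
      rw [hN]
      push_cast
      linarith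

end Pool.Agent.X330.RF
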