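import Mathlib
set_option autoImplicit false
open Finset

namespace Pool.Agent.X330.RF

/-- number of vertices of the forest still to be placed before star `i` -/
noncomputable def rs (ρ : ℝ) (n : ℕ) : ℕ → ℕ
  | 0 => n
  | i + 1 => rs ρ n i - (⌊ρ * (rs ρ n i : ℝ)⌋₊ + 1)

theorem rs_le (ρ : ℝ) (n i : ℕ) : rs ρ n i ≤ n - i := by
  induction i with
  | zero => simp [rs]
  | succ i ih =>
    have : rs ρ n (i + 1) = rs ρ n i - (⌊ρ * (rs ρ n i : ℝ)⌋₊ + 1) := rfl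
    omega

theorem rs_succ (ρ : ℝ) (hρ0 : 0 ≤ ρ) (hρ : ρ ≤ 1 / 2) (n i : ℕ) (h2 : 2 ≤ rs ρ n i) :
    rs ρ n i = rs ρ n (i + 1) + (⌊ρ * (rs ρ n i : ℝ)⌋₊ + 1) := by
  have h1 : rs ρ n (i + 1) = rs ρ n i - (⌊ρ * (rs ρ n i : ℝ)⌋₊ + 1) := rfl
  have h3 : ⌊ρ * (rs ρ n i : ℝ)⌋₊ + 1 ≤ rs ρ n i := by
    have h4 : (⌊ρ * (rs ρ n i : ℝ)⌋₊ : ℝ) ≤ ρ * (rs ρ n i : ℝ) :=
      Nat.floor_le (mul_nonneg hρ0 (Nat.cast_nonneg _))
    have h5 : (2 : ℝ) ≤ (rs ρ n i : ℝ) := by exact_mod_cast h2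
    have h6 : (⌊ρ * (rs ρ n i : ℝ)⌋₊ : ℝ) + 1 ≤ (rs ρ n i : ℝ) := by nlinarith
    exact_mod_cast h6
  omega

theorem sizes (ρ : ℝ) (hρ0 : 1 / 4 ≤ ρ) (hρ : ρ ≤ 1 / 2) (n M h : ℕ) (hh : 1 ≤ h)
    (hM : 8 * (h + 1) ≤ M) (hn : M ≤ n) :
    ∃ (b g : ℕ) (s r : ℕ → ℕ), (∀ i ≤ b, n = r i + ∑ l ∈ Ico 0 i, (s l + 1)) ∧
      (∀ i < b, M ≤ r i) ∧ (∀ i < b, (s i : ℝ) ≤ ρ * r i) ∧ (∀ i < b, 1 ≤ s i) ∧
      r b < M ∧ M ≤ 2 * r b + 2 ∧ n = ∑ l ∈ Ico 0 (b + g), (s l + 1) ∧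
      (∀ i ∈ Ico b (b + g), s i ≤ 2 * h ∧ h ≤ s i) ∧ (∀ i, b ≤ i → i + 1 < b + g → s i = h) ∧
      g * (h + 1) ≤ r b ∧ r b < (g + 1) * (h + 1) ∧
      ((b : ℝ) - 1) * Real.log (1 / (1 - ρ)) ≤ Real.log n := by
  classical
  have hex : ∃ i, rs ρ n i < M := ⟨n, by have := rs_le ρ n n; omega⟩
  set b := Nat.find hex with hb
  have hbM : rs ρ n b < M := Nat.find_spec hex
  have hbm : ∀ i < b, M ≤ rs ρ n i := fun i hi => by
    have := Nat.find_min hex hi
    omega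
  have hb0 : 0 < b := by
    by_contra h0
    have h1 : b = 0 := by omega
    rw [h1] at hbM
    have h2 : rs ρ n 0 = n := rfl
    omega
  have hstep : ∀ i < b, rs ρ n i = rs ρ n (i + 1) + (⌊ρ * (rs ρ n i : ℝ)⌋₊ + 1) := fun i hi =>
    rs_succ ρ (by linarith) hρ n i (by have := hbm i hi; omega)
  set r := rs ρ n with hr
  obtain ⟨g, hg⟩ : ∃ g, g = r b / (h + 1) := ⟨_, rfl⟩
  have hg1 : g * (h + 1) ≤ r b := by rw [hg]; exact Nat.div_mul_le_self _ _
  have hg2 : r b < (g + 1) * (h + 1) := by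
    have h1 := Nat.div_add_mod (r b) (h + 1)
    have h2 := Nat.mod_lt (r b) (show 0 < h + 1 by omega)
    have h3 : (g + 1) * (h + 1) = (h + 1) * (r b / (h + 1)) + (h + 1) := by rw [hg]; ring
    omega
  have hrb : M ≤ 2 * r b + 2 := by
    have h1 := hstep (b - 1) (by omega)
    have h2 := hbm (b - 1) (by omega)
    have h3 : b - 1 + 1 = b := by omega
    rw [h3] at h1
    have h4 : (⌊ρ * (r (b - 1) : ℝ)⌋₊ : ℝ) ≤ ρ * (r (b - 1) : ℝ) :=
      Nat.floor_le (mul_nonneg (by linarith) (Nat.cast_nonneg _))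
    have h5 : ρ * (r (b - 1) : ℝ) ≤ 1 / 2 * (r (b - 1) : ℝ) :=
      mul_le_mul_of_nonneg_right hρ (Nat.cast_nonneg _)
    have h6 : 2 * (⌊ρ * (r (b - 1) : ℝ)⌋₊ : ℝ) ≤ (r (b - 1) : ℝ) := by linarith
    have h7 : 2 * ⌊ρ * (r (b - 1) : ℝ)⌋₊ ≤ r (b - 1) := by exact_mod_cast h6
    omega
  have hg0 : 1 ≤ g := by
    by_contra h0
    have h1 : g = 0 := Nat.lt_one_iff.mp (not_le.mp h0)
    rw [h1] at hg2
    simp only [zero_add, one_mul] at hg2
    omega
  set s : ℕ → ℕ := fun i => if i < b then ⌊ρ * (r i : ℝ)⌋₊ else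
    if i + 1 < b + g then h else r b - (g - 1) * (h + 1) - 1 with hs
  have hs1 : ∀ i < b, s i = ⌊ρ * (r i : ℝ)⌋₊ := fun i hi => by simp only [hs, hi, if_true]
  have hs2 : ∀ i, b ≤ i → i + 1 < b + g → s i = h := fun i hi hi' => by
    have : ¬ i < b := by omega
    simp only [hs, this, hi', if_true, if_false]
  have hs3 : s (b + g - 1) = r b - (g - 1) * (h + 1) - 1 := by
    have h1 : ¬ (b + g - 1) < b := by omega
    have h2 : ¬ (b + g - 1) + 1 < b + g := by omega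
    simp only [hs, h1, h2, if_false]
  have hgg : (g - 1) * (h + 1) + (h + 1) = g * (h + 1) := by
    obtain ⟨g', hg'⟩ : ∃ g', g = g' + 1 := ⟨g - 1, by omega⟩
    rw [hg']; simp; ring
  have hgg2 : (g + 1) * (h + 1) = g * (h + 1) + (h + 1) := by ring
  have hA : ∀ i ≤ b, n = r i + ∑ l ∈ Ico 0 i, (s l + 1) := by
    intro i
    induction i with
    | zero => intro _; simp [hr, rs]
    | succ i ih =>
      intro hi
      have h1 := ih (by omega)
      rw [Finset.sum_Ico_succ_top (Nat.zero_le _), hs1 i (by omega)]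
      have h2 := hstep i (by omega)
      omega
  refine ⟨b, g, s, r, hA, hbm, ?_, ?_, hbM, hrb, ?_, ?_, hs2, hg1, hg2, ?_⟩
  · intro i hi
    rw [hs1 i hi]
    exact Nat.floor_le (mul_nonneg (by linarith) (Nat.cast_nonneg _))
  · intro i hi
    rw [hs1 i hi]
    apply Nat.le_floor
    have h1 : (M : ℝ) ≤ r i := by exact_mod_cast hbm i hi
    have h2 : (8 : ℝ) ≤ M := by
      have : 8 ≤ M := by omega
      exact_mod_cast this
    push_cast
    nlinarith
  · have h1 := hA b le_rfl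
    rw [← Finset.sum_Ico_consecutive _ (Nat.zero_le b) (by omega : b ≤ b + g)]
    have h2 : ∑ l ∈ Ico b (b + g), (s l + 1) = r b := by
      have h3 : b + g = (b + g - 1) + 1 := by omega
      rw [h3, Finset.sum_Ico_succ_top (by omega), hs3]
      have h4 : ∑ l ∈ Ico b (b + g - 1), (s l + 1) = ∑ _l ∈ Ico b (b + g - 1), (h + 1) := by
        apply Finset.sum_congr rfl
        intro l hl
        rw [Finset.mem_Ico] at hl
        rw [hs2 l hl.1 (by omega)]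
      rw [h4, Finset.sum_const, Nat.card_Ico, smul_eq_mul]
      have h5 : b + g - 1 - b = g - 1 := by omega
      rw [h5]
      omega
    rw [h2]
    omega
  · intro i hi
    rw [Finset.mem_Ico] at hi
    by_cases h1 : i + 1 < b + g
    · rw [hs2 i hi.1 h1]
      omega
    · have h2 : i = b + g - 1 := by omega
      rw [h2, hs3]
      omega
  · -- bound for b
    have h1 : ∀ i ≤ b, (r i : ℝ) ≤ (1 - ρ) ^ i * n := by
      intro i
      induction i with
      | zero => intro _; simp [hr, rs]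
      | succ i ih =>
        intro hi
        have h2 := ih (by omega)
        have h3 := hstep i (by omega)
        have h4 : (r i : ℝ) = r (i + 1) + ((⌊ρ * (r i : ℝ)⌋₊ : ℝ) + 1) := by exact_mod_cast h3
        have h5 := Nat.lt_floor_add_one (ρ * (r i : ℝ))
        rw [pow_succ]
        have h6 : (1 - ρ) * (r i : ℝ) ≤ (1 - ρ) * ((1 - ρ) ^ i * n) :=
          mul_le_mul_of_nonneg_left h2 (by linarith)
        nlinarith
    have h2 := h1 (b - 1) (by omega)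
    have h3 : (1 : ℝ) ≤ r (b - 1) := by
      have : 1 ≤ r (b - 1) := by
        have := hbm (b - 1) (by omega)
        omega
      exact_mod_cast this
    have hq : 0 < 1 - ρ := by linarith
    have h4 : (1 : ℝ) ≤ (1 - ρ) ^ (b - 1) * n := h3.trans h2
    have hn0 : (0 : ℝ) < n := by
      have : 0 < n := by omega
      exact_mod_cast this
    have h5 := Real.log_le_log one_pos h4
    rw [Real.log_one, Real.log_mul (pow_pos hq _).ne' hn0.ne', Real.log_pow] at h5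
    rw [one_div, Real.log_inv]
    have h6 : ((b - 1 : ℕ) : ℝ) = (b : ℝ) - 1 := by
      rw [Nat.cast_sub hb0]; simp
    rw [h6] at h5
    linarith

end Pool.Agent.X330.RF
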