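import Mathlib
import Pool.Agent.X330.RF.Combine
import Pool.Agent.X330.RF.Sizes
set_option autoImplicit false
open Finset
open scoped Classical

namespace Pool.Agent.X330.RF

theorem pool {V : Type} [Fintype V] (H : SimpleGraph V) (K m : ℕ) (δ : ℝ) (hδ0 : 0 < δ)
    (hδ : δ ≤ 1 / 100) (hm : 0 < m) (hmV : m ≤ Fintype.card V) (hKm : (K : ℝ) ≤ δ * m)
    (h2m : 1 ≤ 2 * δ * m) (hlog : Real.log (Fintype.card V : ℝ) ≤ δ ^ 2 * K) :
    ∃ H' : SimpleGraph V, (H' = H ∨ H' = Hᶜ) ∧ ∃ P X : Finset V, P.card = K ∧ X.card ≤ m ∧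
      ∀ d, d ∉ X → (1 / 2 - 4 * δ) * (K : ℝ) ≤ (cnt H' P d : ℝ) := by
  have hm' : (0 : ℝ) < m := by exact_mod_cast hm
  obtain ⟨H', hH', p, hp0, hp1, hp2, X, hX, hd⟩ := minimax_graph H m hm hmV
  have hKm' : (K : ℝ) * (1 / (m : ℝ)) ≤ δ := by
    rw [mul_one_div, div_le_iff₀ hm']; exact hKm
  have h2m' : 1 / (2 * (m : ℝ)) ≤ δ := by
    rw [div_le_iff₀ (by positivity)]; linarith
  obtain ⟨P, -, hPc, hP⟩ := sample H' p hp0 (1 / (m : ℝ)) hp1 univ hp2 (univ \ X)
    (1 / 2 - 1 / (2 * (m : ℝ))) (fun d hd' => hd d (Finset.mem_sdiff.mp hd').2) K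
    (by linarith) δ hδ0 (by linarith) (by linarith) (by
      have hle : ((univ : Finset V) \ X).card ≤ Fintype.card V := by
        rw [← Finset.card_univ]; exact Finset.card_le_card Finset.sdiff_subset
      rcases Nat.eq_zero_or_pos ((univ : Finset V) \ X).card with h0 | h0
      · rw [h0, Nat.cast_zero, Real.log_zero]; positivity
      · exact (Real.log_le_log (by exact_mod_cast h0) (by exact_mod_cast hle)).trans hlog)
  refine ⟨H', hH', P, X, hPc, hX.le, fun d hdX => ?_⟩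
  refine le_trans ?_ (hP d (Finset.mem_sdiff.mpr ⟨Finset.mem_univ _, hdX⟩))
  apply mul_le_mul_of_nonneg_right _ (Nat.cast_nonneg _)
  linarith

theorem log_half (D : ℝ) (hD : 1000 ≤ D) :
    Real.log 2 * (1 - 21 * (1 / D)) ≤ Real.log (1 / (1 - (1 / 2 - 7 * (1 / D)))) := by
  have hD0 : 0 < D := by linarith
  have h1 : 1 - (1 / 2 - 7 * (1 / D)) = (1 + 14 * (1 / D)) / 2 := by ring
  have hpos : 0 < 1 + 14 * (1 / D) := by positivity
  have h5 : (1 : ℝ) / ((1 + 14 * (1 / D)) / 2) = 2 / (1 + 14 * (1 / D)) := by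
    rw [one_div_div]
  rw [h1, h5, Real.log_div (by norm_num) hpos.ne']
  have h2 : Real.log (1 + 14 * (1 / D)) ≤ 14 * (1 / D) := by
    have := Real.log_le_sub_one_of_pos hpos
    linarith
  have h3 : 0.6931471803 < Real.log 2 := Real.log_two_gt_d9
  have h4 : 0 < 1 / D := by positivity
  nlinarith

theorem upper_numeric (ε : ℝ) (hε : 0 < ε) : ∃ n₀ : ℕ, ∀ n ≥ n₀, ∃ (k x : ℕ) (s : ℕ → ℕ),
    (x : ℝ) ≤ (1 + ε) * Real.logb 2 n ∧ n = ∑ l ∈ Ico 0 k, (s l + 1) ∧
    (∀ i ∈ Ico 0 k, 1 ≤ s i) ∧ ∀ (V : Type) [Fintype V] (H : SimpleGraph V),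
      Fintype.card V = n + x → (∃ c L, Pk H s 0 k c L) ∨ (∃ c L, Pk Hᶜ s 0 k c L) := by
  obtain ⟨D, hD⟩ : ∃ D : ℕ, 1000 ≤ D ∧ (168 / ε : ℝ) ≤ D := by
    obtain ⟨D, hD⟩ := exists_nat_ge (168 / ε)
    exact ⟨max D 1000, le_max_right _ _, hD.trans (by exact_mod_cast le_max_left _ _)⟩
  obtain ⟨hD1, hD2⟩ := hD
  obtain ⟨t, ht⟩ : ∃ t : ℕ, 2 ≤ t ∧ (80 / ε : ℝ) ≤ t := by
    obtain ⟨D, hD⟩ := exists_nat_ge (80 / ε)
    exact ⟨max D 2, le_max_right _ _, hD.trans (by exact_mod_cast le_max_left _ _)⟩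
  obtain ⟨ht1, ht2⟩ := ht
  obtain ⟨CK, hCK⟩ : ∃ CK, CK = (t + 2) * D ^ 2 := ⟨_, rfl⟩
  obtain ⟨e, he⟩ : ∃ e, e = D * CK := ⟨_, rfl⟩
  obtain ⟨CM, hCM⟩ : ∃ CM, CM = D * (CK + 2 * e + 2 * (t + 1) * e) := ⟨_, rfl⟩
  obtain ⟨CR, hCR⟩ : ∃ CR, CR = CM + 2 * (t + 1) + 20 := ⟨_, rfl⟩
  -- the threshold for h
  have hlogev : ∃ h₀ : ℕ, ∀ h : ℕ, h₀ ≤ h → Real.log ((CR : ℝ) * h) ≤ (h : ℝ) / 4096 := by
    have hCR0 : (0 : ℝ) < CR := by rw [hCR]; positivity
    have h1 := Real.isLittleO_log_id_atTop.def (show (0 : ℝ) < 1 / (4096 * CR) by positivity)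
    have h2 : Filter.Tendsto (fun h : ℕ => (CR : ℝ) * h) Filter.atTop Filter.atTop :=
      Filter.Tendsto.const_mul_atTop hCR0 tendsto_natCast_atTop_atTop
    have h3 := (h2.eventually h1)
    rw [Filter.eventually_atTop] at h3
    obtain ⟨h₀, h3⟩ := h3
    refine ⟨h₀, fun h hh => ?_⟩
    have h4 := h3 h hh
    simp only [id, Real.norm_eq_abs] at h4
    have h5 : |(CR : ℝ) * h| = CR * h := abs_of_nonneg (by positivity)
    rw [h5] at h4
    have h6 : 1 / (4096 * (CR : ℝ)) * (CR * h) = (h : ℝ) / 4096 := by field_simp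
    rw [h6] at h4
    exact (le_abs_self _).trans h4
  obtain ⟨h₁, hh₁⟩ := hlogev
  set h₀ := max h₁ (e * e + 6 * CM + t + CR + 100) with hh₀
  refine ⟨2 ^ (t * h₀), fun n hn => ?_⟩
  have hn0 : n ≠ 0 := by
    have : 0 < 2 ^ (t * h₀) := by positivity
    omega
  obtain ⟨ℓ, hℓ⟩ : ∃ ℓ, ℓ = Nat.log 2 n := ⟨_, rfl⟩
  obtain ⟨h, hh⟩ : ∃ h, h = ℓ / t := ⟨_, rfl⟩
  have hℓ0 : t * h₀ ≤ ℓ := by
    rw [hℓ]
    exact (Nat.le_log_iff_pow_le (by norm_num) hn0).mpr hn
  have hhh : h₀ ≤ h := by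
    rw [hh]
    exact (Nat.le_div_iff_mul_le (by omega)).mpr (by rw [mul_comm]; exact hℓ0)
  have hlog := hh₁ h ((le_max_left _ _).trans hhh)
  have hC : e * e + 6 * CM + t + CR + 100 ≤ h := (le_max_right _ _).trans hhh
  have hth : t * h ≤ ℓ := by rw [hh]; exact Nat.mul_div_le _ _
  have hth2 : ℓ ≤ (t + 1) * h := by
    have h1 := Nat.lt_mul_div_succ ℓ (show 0 < t by omega)
    rw [← hh, mul_add, mul_one] at h1
    have h2 : (t + 1) * h = t * h + h := by ring
    omega
  have hpow1 : 2 ^ ℓ ≤ n := by rw [hℓ]; exact Nat.pow_log_le_self 2 hn0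
  have hpow2 : n < 2 ^ (ℓ + 1) := by rw [hℓ]; exact Nat.lt_pow_succ_log_self (by norm_num) n
  have hhhn : h * h ≤ n := by
    have h1 : h < 2 ^ h := Nat.lt_two_pow_self
    have h2 : h * h ≤ 2 ^ h * 2 ^ h := Nat.mul_le_mul h1.le h1.le
    have h3 : 2 ^ h * 2 ^ h ≤ 2 ^ ℓ := by
      rw [← pow_add]
      apply Nat.pow_le_pow_right (by norm_num)
      nlinarith
    omega
  have hlogb1 : (ℓ : ℝ) ≤ Real.logb 2 n := by
    rw [Real.le_logb_iff_rpow_le (by norm_num) (by positivity)]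
    rw [Real.rpow_natCast]
    exact_mod_cast hpow1
  have hlogb2 : Real.logb 2 n ≤ ℓ + 1 := by
    rw [Real.logb_le_iff_le_rpow (by norm_num) (by positivity)]
    have : ((ℓ : ℝ) + 1) = ((ℓ + 1 : ℕ) : ℝ) := by push_cast; ring
    rw [this, Real.rpow_natCast]
    exact_mod_cast hpow2.le
  -- bounds on constants
  have hCK1 : 1 ≤ CK := by
    rw [hCK]; exact Nat.mul_pos (by omega) (by positivity)
  have hCK2 : (t + 2) * 1000000 ≤ CK := by
    rw [hCK]; apply Nat.mul_le_mul_left; nlinarith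
  have he1 : 1000 * CK ≤ e := by rw [he]; exact Nat.mul_le_mul_right _ hD1
  have hCM1 : 1000 * (CK + 2 * e + 2 * (t + 1) * e) ≤ CM := by
    rw [hCM]; exact Nat.mul_le_mul_right _ hD1
  have hCM2 : 6 * (t + 1) ≤ CM := by nlinarith
  have hCM3 : 4 * (e + 2) ≤ CM := by nlinarith
  have hMn : CM * h ≤ n := by
    have : CM * h ≤ h * h := Nat.mul_le_mul_right _ (by omega)
    omega
  -- real versions
  have hDr : (1000 : ℝ) ≤ D := by exact_mod_cast hD1
  have hDpos : (0 : ℝ) < D := by linarith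
  set δ : ℝ := 1 / (D : ℝ) with hδdef
  have hδ0 : 0 < δ := by positivity
  have hδ1 : δ ≤ 1 / 1000 := by
    rw [hδdef]; exact one_div_le_one_div_of_le (by norm_num) hDr
  have hδD : δ * D = 1 := by rw [hδdef]; field_simp
  obtain ⟨b, g, s, r, hnr, hMr, hsr, hs1, hrbM, hMrb, hnsum, hslate, hsh, hg1, hg2, hblog⟩ :=
    sizes (1 / 2 - 7 * δ) (by linarith) (by linarith) n (CM * h) h (by omega) (by nlinarith) hMn
  -- bound on b
  have hlog2 : 0 < Real.log 2 := Real.log_pos (by norm_num)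
  have hb1 : (b : ℝ) - 1 ≤ (1 + 42 * δ) * Real.logb 2 n := by
    have h1 := log_half D hDr
    have hlb0 : 0 ≤ Real.logb 2 n := (Nat.cast_nonneg _).trans hlogb1
    rcases le_or_gt (b : ℝ) 1 with hb | hb
    · have : 0 ≤ (1 + 42 * δ) * Real.logb 2 n := by positivity
      linarith
    · have h2 : ((b : ℝ) - 1) * (Real.log 2 * (1 - 21 * δ)) ≤ Real.log n :=
        (mul_le_mul_of_nonneg_left h1 (by linarith)).trans hblog
      have h3 : Real.log n = Real.logb 2 n * Real.log 2 := by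
        unfold Real.logb; field_simp
      rw [h3] at h2
      have h4 : ((b : ℝ) - 1) * (1 - 21 * δ) ≤ Real.logb 2 n := by
        have h5 : (((b : ℝ) - 1) * (1 - 21 * δ)) * Real.log 2 ≤ Real.logb 2 n * Real.log 2 := by
          linarith
        exact le_of_mul_le_mul_right h5 hlog2
      have h6 : 1 ≤ (1 - 21 * δ) * (1 + 42 * δ) := by nlinarith
      have h7 : ((b : ℝ) - 1) * 1 ≤ ((b : ℝ) - 1) * ((1 - 21 * δ) * (1 + 42 * δ)) :=
        mul_le_mul_of_nonneg_left h6 (by linarith)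
      have h8 : ((b : ℝ) - 1) * (1 - 21 * δ) * (1 + 42 * δ) ≤ Real.logb 2 n * (1 + 42 * δ) :=
        mul_le_mul_of_nonneg_right h4 (by linarith)
      linarith
  have hth' : 2 * h ≤ ℓ := by nlinarith
  have hb2 : b ≤ 2 * ℓ := by
    have h1 : (b : ℝ) ≤ 2 * ℓ := by
      have h2 : (1 + 42 * δ) * Real.logb 2 n ≤ (1 + 42 * (1 / 1000)) * (ℓ + 1) := by
        apply mul_le_mul _ hlogb2 ((Nat.cast_nonneg _).trans hlogb1) (by norm_num)
        linarith
      have h3 : (200 : ℝ) ≤ ℓ := by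
        have : 200 ≤ ℓ := by omega
        exact_mod_cast this
      linarith
    exact_mod_cast h1
  have hb3 : b ≤ 2 * (t + 1) * h := by nlinarith
  have hgCM : g ≤ CM := by
    by_contra hlt
    push Not at hlt
    have h1 : CM * (h + 1) ≤ g * (h + 1) := Nat.mul_le_mul_right _ hlt.le
    nlinarith
  have heg : e < g := by
    by_contra hlt
    push Not at hlt
    have h1 : (g + 1) * (h + 1) ≤ (e + 1) * (h + 1) := Nat.mul_le_mul_right _ (by omega)
    have h2 : 4 * (e + 2) * h ≤ CM * h := Nat.mul_le_mul_right _ hCM3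
    nlinarith
  have hx : ((b + 20 * h : ℕ) : ℝ) ≤ (1 + ε) * Real.logb 2 n := by
    have hlb0 : 0 ≤ Real.logb 2 n := (Nat.cast_nonneg _).trans hlogb1
    have h1 : 42 * δ ≤ ε / 4 := by
      have h2 : 168 ≤ (D : ℝ) * ε := by
        rw [div_le_iff₀ hε] at hD2; exact hD2
      have h3 : 168 * δ ≤ ε := by
        have := mul_le_mul_of_nonneg_left h2 hδ0.le
        nlinarith
      linarith
    have h2 : 80 ≤ (t : ℝ) * ε := by
      rw [div_le_iff₀ hε] at ht2; exact ht2
    have h3 : (t : ℝ) * h ≤ ℓ := by exact_mod_cast hth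
    have h4 : 80 * (h : ℝ) ≤ ε * ℓ := by
      have hh0 : (0 : ℝ) ≤ h := Nat.cast_nonneg _
      have h5 := mul_le_mul_of_nonneg_right h2 hh0
      have h6 := mul_le_mul_of_nonneg_left h3 hε.le
      linarith
    have h5 : ε * (ℓ : ℝ) ≤ ε * Real.logb 2 n := mul_le_mul_of_nonneg_left hlogb1 hε.le
    have h6 : (1 : ℝ) ≤ h := by
      have : 1 ≤ h := by omega
      exact_mod_cast this
    have h7 : 42 * δ * Real.logb 2 n ≤ ε / 4 * Real.logb 2 n :=
      mul_le_mul_of_nonneg_right h1 hlb0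
    push_cast
    linarith
  refine ⟨b + g, b + 20 * h, s, hx, hnsum, ?_, ?_⟩
  · intro i hi
    rw [Finset.mem_Ico] at hi
    by_cases hib : i < b
    · exact hs1 i hib
    · have := (hslate i (Finset.mem_Ico.mpr ⟨by omega, hi.2⟩)).2
      omega
  intro V _ H hV
  -- apply the pool lemma
  have hKr : ((CK * h : ℕ) : ℝ) = δ * ((e * h : ℕ) : ℝ) := by
    rw [he]; push_cast
    calc (CK : ℝ) * h = (δ * D) * (CK * h) := by rw [hδD]; ring
      _ = δ * (D * CK * h) := by ring
  have hh1 : (100 : ℝ) ≤ h := by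
    have : 100 ≤ h := by omega
    exact_mod_cast this
  have her : (e : ℝ) = D * CK := by rw [he]; push_cast; ring
  have hCKr : (1 : ℝ) ≤ CK := by exact_mod_cast hCK1
  have hVne : Nonempty V := by
    rw [← Fintype.card_pos_iff, hV]; omega
  obtain ⟨H', hH', P, X, hPc, hXc, hPd⟩ := pool H (CK * h) (e * h) δ hδ0 (by linarith)
    (Nat.mul_pos (by omega) (by omega)) (by
      rw [hV]
      have : e * h ≤ h * h := Nat.mul_le_mul_right _ (by omega)
      omega) (le_of_eq hKr) (by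
      push_cast
      rw [her]
      have h1 : 2 * δ * (D * CK * h) = 2 * ((δ * D) * (CK * h)) := by ring
      rw [h1, hδD]
      nlinarith) (by
      have h1 : Fintype.card V ≤ 2 ^ (ℓ + 2) := by
        rw [hV]
        have h2 : b + 20 * h ≤ h * h := by
          have h3 : 2 * (t + 1) * h + 20 * h ≤ h * h := by
            have : (2 * (t + 1) + 20) * h ≤ h * h := Nat.mul_le_mul_right _ (by omega)
            nlinarith
          omega
        have h4 : 2 ^ (ℓ + 2) = 2 * 2 ^ (ℓ + 1) := by ring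
        omega
      have h2 : Real.log (Fintype.card V : ℝ) ≤ Real.log ((2 : ℝ) ^ (ℓ + 2)) := by
        apply Real.log_le_log
        · have : 0 < Fintype.card V := by rw [hV]; omega
          exact_mod_cast this
        · exact_mod_cast h1
      rw [Real.log_pow] at h2
      have h3 : Real.log 2 < 0.6931471808 := Real.log_two_lt_d9
      have h4 : ((ℓ + 2 : ℕ) : ℝ) * Real.log 2 ≤ (ℓ + 2 : ℕ) := by
        have : (0 : ℝ) ≤ ((ℓ + 2 : ℕ) : ℝ) := Nat.cast_nonneg _
        nlinarith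
      have h5 : ((ℓ + 2 : ℕ) : ℝ) ≤ ((t + 2) * h : ℕ) := by
        have : ℓ + 2 ≤ (t + 2) * h := by
          have : (t + 2) * h = (t + 1) * h + h := by ring
          omega
        exact_mod_cast this
      have h6 : δ ^ 2 * ((CK * h : ℕ) : ℝ) = (((t + 2) * h : ℕ) : ℝ) := by
        rw [hCK]; push_cast
        calc δ ^ 2 * (((t : ℝ) + 2) * D ^ 2 * h) = (δ * D) ^ 2 * (((t : ℝ) + 2) * h) := by ring
          _ = ((t : ℝ) + 2) * h := by rw [hδD]; ring
      rw [h6]
      linarith)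
  -- apply the process
  have key := process H' hVne P X s n (b + 20 * h) (b + 10 * h) b (b + g) e h (e * h) (8 * h)
    (CK * h) h (CM * h + (b + 20 * h)) δ hδ0 (by linarith) hV hnsum (by omega) (by
      intro i hi
      rw [Finset.mem_Ico] at hi
      exact hsh i hi.1 (by omega)) hPc hXc le_rfl (by omega) hPd (by
      have h1 : (b : ℝ) ≤ 2 * (t + 1) * h := by exact_mod_cast hb3
      have h2 : δ * ((CK * h : ℕ) : ℝ) = (t + 2) * D * h := by
        rw [hCK]; push_cast
        calc δ * (((t : ℝ) + 2) * D ^ 2 * h) = (δ * D) * ((t + 2) * D * h) := by ring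
          _ = (t + 2) * D * h := by rw [hδD]; ring
      rw [h2]
      have h3 : 2 * ((t : ℝ) + 1) * h ≤ (t + 2) * D * h := by
        apply mul_le_mul_of_nonneg_right _ (by linarith)
        have : (0 : ℝ) ≤ t := Nat.cast_nonneg _
        nlinarith
      linarith) (by
      -- hsB
      intro i hi
      rw [Finset.mem_Ico] at hi
      have h1 := hsr i hi.2
      have h2 := hnr i hi.2.le
      have h3 : (n : ℝ) = r i + (∑ l ∈ Ico 0 i, (s l : ℝ) + i) := by
        have h4 : n = r i + (∑ l ∈ Ico 0 i, s l + i) := by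
          rw [Finset.sum_add_distrib] at h2
          simpa using h2
        exact_mod_cast h4
      have h4 : ∑ l ∈ Ico 0 i, ((s l : ℝ) + e) = ∑ l ∈ Ico 0 i, (s l : ℝ) + i * e := by
        rw [Finset.sum_add_distrib]
        simp
      have h5 : (i : ℝ) ≤ b := by exact_mod_cast hi.2.le
      have h6 : ((CM * h : ℕ) : ℝ) ≤ r i := by exact_mod_cast hMr i hi.2
      have h7 : (b : ℝ) ≤ 2 * (t + 1) * h := by exact_mod_cast hb3
      have he0 : (0 : ℝ) ≤ e := Nat.cast_nonneg _
      have h8 : (i : ℝ) * e ≤ 2 * (t + 1) * h * e :=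
        mul_le_mul_of_nonneg_right (h5.trans h7) he0
      have h9 : (CK : ℝ) * h + 2 * e * h + 2 * (t + 1) * e * h ≤ δ * r i := by
        have h10 := mul_le_mul_of_nonneg_left h6 hδ0.le
        refine le_trans (le_of_eq ?_) h10
        rw [hCM]; push_cast
        calc (CK : ℝ) * h + 2 * e * h + 2 * (t + 1) * e * h =
            (δ * D) * ((CK + 2 * e + 2 * (t + 1) * e) * h) := by rw [hδD]; ring
          _ = _ := by ring
      rw [h4, h3]
      push_cast
      have h11 : (e : ℝ) ≤ e * h := by nlinarith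
      have hi0 : (0 : ℝ) ≤ i := Nat.cast_nonneg _
      have hb0 : (0 : ℝ) ≤ b := Nat.cast_nonneg _
      have hZ : (r i : ℝ) - CK * h - e * h - 2 * (t + 1) * h * e ≤
          (r i : ℝ) + (∑ l ∈ Ico 0 i, (s l : ℝ) + i) + (b + 20 * h) - CK * h - e * h -
          (∑ l ∈ Ico 0 i, (s l : ℝ) + i * e) := by linarith
      have h12 : (1 / 2 - 6 * δ) * ((r i : ℝ) - CK * h - e * h - 2 * (t + 1) * h * e) ≤
          (1 / 2 - 6 * δ) * ((r i : ℝ) + (∑ l ∈ Ico 0 i, (s l : ℝ) + i) + (b + 20 * h) -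
            CK * h - e * h - (∑ l ∈ Ico 0 i, (s l : ℝ) + i * e)) :=
        mul_le_mul_of_nonneg_left hZ (by linarith)
      refine le_trans ?_ h12
      have hQ : 0 ≤ (CK : ℝ) * h + e * h + 2 * (t + 1) * h * e := by positivity
      have h13 : (1 / 2 - 6 * δ) * ((CK : ℝ) * h + e * h + 2 * (t + 1) * h * e) ≤
          1 * ((CK : ℝ) * h + e * h + 2 * (t + 1) * h * e) :=
        mul_le_mul_of_nonneg_right (by linarith) hQ
      linarith) (by
      -- 32 K' + b ≤ K
      have h1 : (t + 2) * 1000000 * h ≤ CK * h := Nat.mul_le_mul_right _ hCK2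
      nlinarith) (by omega) (by
      -- R
      have h1 := hnr b le_rfl
      omega) (by
      -- log
      refine le_trans ?_ hlog
      apply Real.log_le_log
      · have : 0 < CM * h + (b + 20 * h) := by omega
        exact_mod_cast this
      · have : CM * h + (b + 20 * h) ≤ CR * h := by
          rw [hCR]
          have : (CM + 2 * (t + 1) + 20) * h = CM * h + 2 * (t + 1) * h + 20 * h := by ring
          omega
        exact_mod_cast this) (by omega) (by
      push_cast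
      have : (e : ℝ) ≤ h := by
        have : e ≤ h := by nlinarith
        exact_mod_cast this
      linarith) (by
      -- hsI
      intro i hi
      rw [Finset.mem_Ico] at hi
      have hgr : (g : ℝ) ≤ h := by
        have : g ≤ h := by omega
        exact_mod_cast this
      have her' : (e : ℝ) ≤ h := by
        have : e ≤ h := by nlinarith
        exact_mod_cast this
      by_cases hib : i < b
      · have h1 := hsr i hib
        have h2 := hnr i hib.le
        have h3 : (n : ℝ) = r i + (∑ l ∈ Ico 0 i, (s l : ℝ) + i) := by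
          have h4 : n = r i + (∑ l ∈ Ico 0 i, s l + i) := by
            rw [Finset.sum_add_distrib] at h2
            simpa using h2
          exact_mod_cast h4
        have h6 : 3 * b ≤ r i := by
          have h7 := hMr i hib
          have h8 : 6 * (t + 1) * h ≤ CM * h := Nat.mul_le_mul_right _ hCM2
          nlinarith
        have h6r : 3 * (b : ℝ) ≤ r i := by exact_mod_cast h6
        have hi0 : (0 : ℝ) ≤ i := Nat.cast_nonneg _
        have h9 : (1 / 2 - 7 * δ) * (r i : ℝ) ≤ 1 / 2 * r i :=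
          mul_le_mul_of_nonneg_right (by linarith) (Nat.cast_nonneg _)
        rw [h3]
        push_cast
        linarith
      · have h1 := (hslate i (Finset.mem_Ico.mpr ⟨by omega, hi.2⟩)).1
        have h1r : (s i : ℝ) ≤ 2 * h := by exact_mod_cast h1
        have h2 : ∑ l ∈ Ico 0 i, s l + (b + g) ≤ n := by
          have h3 : ∑ l ∈ Ico 0 i, s l ≤ ∑ l ∈ Ico 0 (b + g), s l := by
            apply Finset.sum_le_sum_of_subset
            intro l hl
            rw [Finset.mem_Ico] at hl ⊢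
            omega
          have h5 : ∑ l ∈ Ico 0 (b + g), (s l + 1) = ∑ l ∈ Ico 0 (b + g), s l + (b + g) := by
            rw [Finset.sum_add_distrib, Finset.sum_const, Nat.card_Ico]; simp
          omega
        have h2r : ∑ l ∈ Ico 0 i, (s l : ℝ) + (b + g) ≤ n := by exact_mod_cast h2
        push_cast
        linarith) (by
      intro i hi
      have h1 := (hslate i hi).1
      omega) (by omega)
  rcases hH' with rfl | rfl
  · exact key
  · rw [compl_compl] at key
    exact key.symm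

end Pool.Agent.X330.RF
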